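import Pool.Agent.helper14.NS.Q100f.PN1

/-!
Generated: certificates.
-/

namespace Pool.Agent.helper14.NS.Q100f

open Pool.Agent.helper31.IA (Z)
open Pool.Agent.helper31.IX (Op XOps runX Cov CovD cov_split covD_split)
open Pool.Agent.helper31.IC (TD)
open Pool.Agent.helper63.RG (reloc)
open Pool.Agent.helper63.NF hiding TD
open Pool.Agent.helper4.NS
open Pool.Agent.helper14.CF (xE covD_E)
open Pool.Agent.helper14.NR (share)

mutual
theorem A1_c0_t2 : CovD 1 gA1 [(8246001664, 916455424), (4810363371520, 412316860416), (4398046511104, 4398046511104)] :=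
  covD_E kA1_eq (.n 2 (.n 2 (.n 2 (.n 2 (.n 2 (.l 0) (.l 0)) (.l 0)) (.n 2 (.l 0) (.l 0))) (.n 2 (.n 2 (.l 0) (.l 0)) (.n 0 (.n 2 (.n 1 (.l 1) (.l 1)) (.l 1)) (.n 2 (.n 1 (.l 1) (.l 1)) (.l 1))))) (.n 2 (.n 0 (.l 1) (.l 1)) (.l 1)))
    [(8246001664, 916455424), (4810363371520, 412316860416), (4398046511104, 4398046511104)] rfl (by decide +kernel)
theorem A1_c0_t3 : CovD 1 gA1 [(8246001664, 916455424), (5634997092352, 412316860416), (4398046511104, 4398046511104)] :=
  covD_E kA1_eq (.n 2 (.n 2 (.n 2 (.n 2 (.n 2 (.l 0) (.l 0)) (.n 2 (.l 0) (.l 0))) (.n 2 (.l 0) (.l 0))) (.n 2 (.n 2 (.l 0) (.l 0)) (.n 2 (.n 2 (.l 0) (.n 0 (.l 1) (.l 1))) (.n 0 (.l 1) (.l 1))))) (.n 2 (.n 0 (.l 1) (.l 1)) (.l 1)))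
    [(8246001664, 916455424), (5634997092352, 412316860416), (4398046511104, 4398046511104)] rfl (by decide +kernel)
end

mutual
theorem A1_c0_t5 : CovD 1 gA1 [(10078912512, 916455424), (4810363371520, 412316860416), (4398046511104, 4398046511104)] :=
  covD_E kA1_eq (.n 2 (.n 2 (.n 2 (.n 2 (.l 0) (.l 0)) (.n 2 (.l 0) (.l 0))) (.n 2 (.n 1 (.l 0) (.l 0)) (.n 2 (.n 2 (.l 0) (.n 0 (.l 1) (.l 1))) (.l 1)))) (.n 2 (.n 0 (.l 1) (.l 1)) (.l 1)))
    [(10078912512, 916455424), (4810363371520, 412316860416), (4398046511104, 4398046511104)] rfl (by decide +kernel)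
theorem A1_c0_t6 : CovD 1 gA1 [(10078912512, 916455424), (5634997092352, 412316860416), (4398046511104, 4398046511104)] :=
  covD_E kA1_eq (.n 2 (.n 2 (.n 2 (.n 2 (.l 0) (.l 0)) (.n 2 (.l 0) (.l 0))) (.n 2 (.n 2 (.l 0) (.l 0)) (.n 2 (.n 2 (.l 0) (.n 0 (.l 1) (.l 1))) (.l 1)))) (.n 2 (.n 0 (.l 1) (.l 1)) (.l 1)))
    [(10078912512, 916455424), (5634997092352, 412316860416), (4398046511104, 4398046511104)] rfl (by decide +kernel)
end

mutual
theorem B1_c0_t5 : CovD 1 gB1 [(8246001664, 916455424), (5222680231936, 824633720832), (4294967296, 4294967296)] :=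
  covD_E kB1_eq (.n 2 (.n 2 (.n 0 (.n 2 (.l 1) (.l 1)) (.n 2 (.l 1) (.l 1))) (.n 2 (.n 0 (.l 1) (.l 1)) (.l 1))) (.n 2 (.n 2 (.l 1) (.l 1)) (.n 0 (.l 1) (.l 1))))
    [(8246001664, 916455424), (5222680231936, 824633720832), (4294967296, 4294967296)] rfl (by decide +kernel)
theorem B1_c0_t6 : CovD 1 gB1 [(10078912512, 916455424), (5222680231936, 824633720832), (4294967296, 4294967296)] :=
  covD_E kB1_eq (.n 2 (.n 2 (.n 2 (.l 1) (.l 1)) (.n 2 (.l 1) (.l 1))) (.n 2 (.n 2 (.l 1) (.l 1)) (.l 1)))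
    [(10078912512, 916455424), (5222680231936, 824633720832), (4294967296, 4294967296)] rfl (by decide +kernel)
end

mutual
theorem B1_c0_t7 : CovD 1 gB1 [(9162457088, 1832910848), (5222680231936, 824633720832), (12884901888, 4294967296)] :=
  covD_E kB1_eq (.n 2 (.n 0 (.n 2 (.l 1) (.l 1)) (.n 2 (.l 1) (.l 1))) (.n 2 (.n 0 (.l 1) (.l 1)) (.l 1)))
    [(9162457088, 1832910848), (5222680231936, 824633720832), (12884901888, 4294967296)] rfl (by decide +kernel)
theorem B1_c0_t8 : CovD 1 gB1 [(9162457088, 1832910848), (5222680231936, 824633720832), (25769803776, 8589934592)] :=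
  covD_E kB1_eq (.n 2 (.n 0 (.n 2 (.l 1) (.l 1)) (.n 2 (.l 1) (.l 1))) (.n 2 (.n 0 (.l 1) (.l 1)) (.l 1)))
    [(9162457088, 1832910848), (5222680231936, 824633720832), (25769803776, 8589934592)] rfl (by decide +kernel)
end

mutual
theorem B1_c0_t9 : CovD 1 gB1 [(9162457088, 1832910848), (5222680231936, 824633720832), (51539607552, 17179869184)] :=
  covD_E kB1_eq (.n 0 (.n 2 (.n 2 (.l 1) (.l 1)) (.n 2 (.l 1) (.l 1))) (.n 2 (.n 2 (.l 1) (.l 1)) (.n 0 (.l 1) (.l 1))))
    [(9162457088, 1832910848), (5222680231936, 824633720832), (51539607552, 17179869184)] rfl (by decide +kernel)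
theorem B1_c0_t10 : CovD 1 gB1 [(9162457088, 1832910848), (5222680231936, 824633720832), (103079215104, 34359738368)] :=
  covD_E kB1_eq (.n 0 (.n 2 (.n 2 (.l 1) (.l 1)) (.n 0 (.l 1) (.l 1))) (.n 2 (.n 2 (.l 1) (.l 1)) (.n 0 (.l 1) (.l 1))))
    [(9162457088, 1832910848), (5222680231936, 824633720832), (103079215104, 34359738368)] rfl (by decide +kernel)
end

mutual
theorem D1_c0_t3 : CovD 1 gD1 [(9162457088, 1832910848), (5222680231936, 824633720832), (107951292416, 107951292416)] :=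
  covD_E kD1_eq (.n 2 (.n 1 (.n 1 (.l 0) (.l 0)) (.n 1 (.l 0) (.n 0 (.l 0) (.l 0)))) (.n 1 (.n 1 (.l 0) (.l 0)) (.n 1 (.l 0) (.n 0 (.l 0) (.l 0)))))
    [(9162457088, 1832910848), (5222680231936, 824633720832), (107951292416, 107951292416)] rfl (by decide +kernel)
theorem D1_c0_t4 : CovD 1 gD1 [(9162457088, 1832910848), (5222680231936, 824633720832), (323853877248, 107951292416)] :=
  covD_E kD1_eq (.n 2 (.n 1 (.n 1 (.l 0) (.l 0)) (.n 1 (.l 0) (.n 0 (.l 0) (.l 0)))) (.n 1 (.n 1 (.l 0) (.l 0)) (.n 1 (.l 0) (.n 0 (.l 0) (.l 0)))))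
    [(9162457088, 1832910848), (5222680231936, 824633720832), (323853877248, 107951292416)] rfl (by decide +kernel)
end

mutual
theorem D1_c0_t6 : CovD 1 gD1 [(9162457088, 1832910848), (5222680231936, 824633720832), (539756462080, 107951292416)] :=
  covD_E kD1_eq (.n 2 (.n 1 (.n 1 (.l 0) (.l 0)) (.n 1 (.l 0) (.n 0 (.l 0) (.l 0)))) (.n 1 (.n 1 (.l 0) (.l 0)) (.n 1 (.l 0) (.n 0 (.l 0) (.l 0)))))
    [(9162457088, 1832910848), (5222680231936, 824633720832), (539756462080, 107951292416)] rfl (by decide +kernel)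
theorem D1_c0_t7 : CovD 1 gD1 [(9162457088, 1832910848), (5222680231936, 824633720832), (755659046912, 107951292416)] :=
  covD_E kD1_eq (.n 2 (.n 1 (.n 1 (.l 0) (.l 0)) (.n 1 (.l 0) (.n 0 (.l 0) (.l 0)))) (.n 1 (.n 1 (.l 0) (.l 0)) (.n 1 (.l 0) (.n 0 (.l 0) (.l 0)))))
    [(9162457088, 1832910848), (5222680231936, 824633720832), (755659046912, 107951292416)] rfl (by decide +kernel)
end

mutual
theorem D1_c0_t10 : CovD 1 gD1 [(9162457088, 1832910848), (5222680231936, 824633720832), (971561631744, 107951292416)] :=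
  covD_E kD1_eq (.n 2 (.n 1 (.n 1 (.l 0) (.l 0)) (.n 1 (.l 0) (.n 0 (.l 0) (.l 0)))) (.n 1 (.n 1 (.l 0) (.l 0)) (.n 1 (.l 0) (.n 0 (.l 0) (.l 0)))))
    [(9162457088, 1832910848), (5222680231936, 824633720832), (971561631744, 107951292416)] rfl (by decide +kernel)
theorem D1_c0_t11 : CovD 1 gD1 [(9162457088, 1832910848), (5222680231936, 824633720832), (1187464216576, 107951292416)] :=
  covD_E kD1_eq (.n 2 (.n 1 (.n 1 (.l 0) (.l 0)) (.n 1 (.l 0) (.n 0 (.l 0) (.l 0)))) (.n 1 (.n 1 (.l 0) (.l 0)) (.n 1 (.l 0) (.n 0 (.l 0) (.l 0)))))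
    [(9162457088, 1832910848), (5222680231936, 824633720832), (1187464216576, 107951292416)] rfl (by decide +kernel)
end

mutual
theorem D1_c0_t13 : CovD 1 gD1 [(9162457088, 1832910848), (5222680231936, 824633720832), (1403366801408, 107951292416)] :=
  covD_E kD1_eq (.n 2 (.n 1 (.n 1 (.l 0) (.l 0)) (.n 1 (.l 0) (.n 0 (.l 0) (.l 0)))) (.n 1 (.n 1 (.l 0) (.l 0)) (.n 1 (.l 0) (.n 0 (.l 0) (.l 0)))))
    [(9162457088, 1832910848), (5222680231936, 824633720832), (1403366801408, 107951292416)] rfl (by decide +kernel)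
theorem D1_c0_t14 : CovD 1 gD1 [(9162457088, 1832910848), (5222680231936, 824633720832), (1619269386240, 107951292416)] :=
  covD_E kD1_eq (.n 2 (.n 1 (.n 1 (.l 0) (.l 0)) (.n 1 (.l 0) (.n 0 (.l 0) (.l 0)))) (.n 1 (.n 1 (.l 0) (.l 0)) (.n 1 (.l 0) (.l 0))))
    [(9162457088, 1832910848), (5222680231936, 824633720832), (1619269386240, 107951292416)] rfl (by decide +kernel)
end

mutual
theorem E1_c0_t5 : CovD 1 gE1 [(9162457088, 1832910848), (4810363371520, 412316860416), (53975646208, 53975646208)] :=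
  covD_E kE1_eq (.n 0 (.n 2 (.n 2 (.n 0 (.l 0) (.l 0)) (.l 0)) (.n 1 (.l 0) (.l 0))) (.n 2 (.n 2 (.l 0) (.l 0)) (.n 1 (.l 0) (.l 0))))
    [(9162457088, 1832910848), (4810363371520, 412316860416), (53975646208, 53975646208)] rfl (by decide +kernel)
theorem E1_c0_t6 : CovD 1 gE1 [(9162457088, 1832910848), (5634997092352, 412316860416), (53975646208, 53975646208)] :=
  covD_E kE1_eq (.n 1 (.n 2 (.n 2 (.l 1) (.l 0)) (.n 0 (.l 0) (.l 0))) (.n 2 (.n 2 (.l 1) (.l 0)) (.n 2 (.l 0) (.l 0))))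
    [(9162457088, 1832910848), (5634997092352, 412316860416), (53975646208, 53975646208)] rfl (by decide +kernel)
end

mutual
theorem E1_c0_t7 : CovD 1 gE1 [(9162457088, 1832910848), (5222680231936, 824633720832), (161926938624, 53975646208)] :=
  covD_E kE1_eq (.n 1 (.n 1 (.n 2 (.l 0) (.l 0)) (.n 2 (.l 0) (.l 0))) (.n 0 (.n 1 (.n 2 (.l 0) (.l 0)) (.n 2 (.l 0) (.l 0))) (.n 1 (.n 2 (.l 0) (.l 0)) (.n 2 (.l 0) (.l 0)))))
    [(9162457088, 1832910848), (5222680231936, 824633720832), (161926938624, 53975646208)] rfl (by decide +kernel)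
theorem E1_c0_t9 : CovD 1 gE1 [(9162457088, 1832910848), (5222680231936, 824633720832), (269878231040, 53975646208)] :=
  covD_E kE1_eq (.n 2 (.n 1 (.n 1 (.l 0) (.l 0)) (.n 1 (.l 0) (.n 0 (.l 0) (.l 0)))) (.n 1 (.n 1 (.l 0) (.l 0)) (.n 1 (.l 0) (.n 0 (.l 0) (.l 0)))))
    [(9162457088, 1832910848), (5222680231936, 824633720832), (269878231040, 53975646208)] rfl (by decide +kernel)
end

mutual
theorem E1_c0_t10 : CovD 1 gE1 [(9162457088, 1832910848), (5222680231936, 824633720832), (377829523456, 53975646208)] :=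
  covD_E kE1_eq (.n 0 (.n 1 (.n 1 (.l 0) (.l 0)) (.n 1 (.l 0) (.n 0 (.l 0) (.l 0)))) (.n 1 (.n 1 (.l 0) (.l 0)) (.n 1 (.l 0) (.n 0 (.l 0) (.l 0)))))
    [(9162457088, 1832910848), (5222680231936, 824633720832), (377829523456, 53975646208)] rfl (by decide +kernel)
theorem E1_c0_t12 : CovD 1 gE1 [(9162457088, 1832910848), (5222680231936, 824633720832), (539756462080, 107951292416)] :=
  covD_E kE1_eq (.n 2 (.n 1 (.n 1 (.l 0) (.n 0 (.l 0) (.l 0))) (.n 0 (.n 1 (.l 0) (.l 0)) (.n 1 (.l 0) (.l 0)))) (.n 1 (.n 1 (.l 0) (.n 0 (.l 0) (.l 0))) (.n 0 (.n 1 (.l 0) (.l 0)) (.n 1 (.l 0) (.l 0)))))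
    [(9162457088, 1832910848), (5222680231936, 824633720832), (539756462080, 107951292416)] rfl (by decide +kernel)
end

mutual
theorem E1_c0_t13 : CovD 1 gE1 [(9162457088, 1832910848), (5222680231936, 824633720832), (755659046912, 107951292416)] :=
  covD_E kE1_eq (.n 2 (.n 1 (.n 1 (.l 0) (.l 0)) (.n 0 (.n 1 (.l 0) (.l 0)) (.n 1 (.l 0) (.l 0)))) (.n 1 (.n 1 (.l 0) (.l 0)) (.n 0 (.n 1 (.l 0) (.l 0)) (.n 1 (.l 0) (.l 0)))))
    [(9162457088, 1832910848), (5222680231936, 824633720832), (755659046912, 107951292416)] rfl (by decide +kernel)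
theorem E1_c0_t16 : CovD 1 gE1 [(9162457088, 1832910848), (5222680231936, 824633720832), (971561631744, 107951292416)] :=
  covD_E kE1_eq (.n 2 (.n 1 (.n 1 (.l 0) (.l 0)) (.n 0 (.n 1 (.l 0) (.l 0)) (.n 1 (.l 0) (.l 0)))) (.n 1 (.n 1 (.l 0) (.l 0)) (.n 0 (.n 1 (.l 0) (.l 0)) (.n 1 (.l 0) (.l 0)))))
    [(9162457088, 1832910848), (5222680231936, 824633720832), (971561631744, 107951292416)] rfl (by decide +kernel)
end

mutual
theorem E1_c0_t17 : CovD 1 gE1 [(9162457088, 1832910848), (5222680231936, 824633720832), (1187464216576, 107951292416)] :=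
  covD_E kE1_eq (.n 2 (.n 1 (.n 1 (.l 0) (.l 0)) (.n 0 (.n 1 (.l 0) (.l 0)) (.n 1 (.l 0) (.l 0)))) (.n 1 (.n 1 (.l 0) (.l 0)) (.n 1 (.l 0) (.n 0 (.l 0) (.l 0)))))
    [(9162457088, 1832910848), (5222680231936, 824633720832), (1187464216576, 107951292416)] rfl (by decide +kernel)
theorem E1_c0_t19 : CovD 1 gE1 [(9162457088, 1832910848), (5222680231936, 824633720832), (1403366801408, 107951292416)] :=
  covD_E kE1_eq (.n 2 (.n 1 (.n 1 (.l 0) (.l 0)) (.n 1 (.l 0) (.n 0 (.l 0) (.l 0)))) (.n 1 (.n 1 (.l 0) (.l 0)) (.n 1 (.l 0) (.n 0 (.l 0) (.l 0)))))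
    [(9162457088, 1832910848), (5222680231936, 824633720832), (1403366801408, 107951292416)] rfl (by decide +kernel)
end

theorem E1_c0_t20 : CovD 1 gE1 [(9162457088, 1832910848), (5222680231936, 824633720832), (1619269386240, 107951292416)] :=
  covD_E kE1_eq (.n 2 (.n 1 (.n 1 (.l 0) (.l 0)) (.n 1 (.l 0) (.l 0))) (.n 1 (.n 1 (.l 0) (.l 0)) (.n 1 (.l 0) (.l 0))))
    [(9162457088, 1832910848), (5222680231936, 824633720832), (1619269386240, 107951292416)] rfl (by decide +kernel)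

theorem A1_c0_t1 : CovD 1 gA1 [(8246001664, 916455424), (5222680231936, 824633720832), (4398046511104, 4398046511104)] :=
  covD_split 1 (by decide +kernel) A1_c0_t2 A1_c0_t3

theorem A1_c0_t4 : CovD 1 gA1 [(10078912512, 916455424), (5222680231936, 824633720832), (4398046511104, 4398046511104)] :=
  covD_split 1 (by decide +kernel) A1_c0_t5 A1_c0_t6

theorem A1_c0 : CovD 1 gA1 [(9162457088, 1832910848), (5222680231936, 824633720832), (4398046511104, 4398046511104)] :=
  covD_split 0 (by decide +kernel) A1_c0_t1 A1_c0_t4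

theorem B1_c0_t4 : CovD 1 gB1 [(9162457088, 1832910848), (5222680231936, 824633720832), (4294967296, 4294967296)] :=
  covD_split 0 (by decide +kernel) B1_c0_t5 B1_c0_t6

theorem B1_c0_t3 : CovD 1 gB1 [(9162457088, 1832910848), (5222680231936, 824633720832), (8589934592, 8589934592)] :=
  covD_split 2 (by decide +kernel) B1_c0_t4 B1_c0_t7

theorem B1_c0_t2 : CovD 1 gB1 [(9162457088, 1832910848), (5222680231936, 824633720832), (17179869184, 17179869184)] :=
  covD_split 2 (by decide +kernel) B1_c0_t3 B1_c0_t8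

theorem B1_c0_t1 : CovD 1 gB1 [(9162457088, 1832910848), (5222680231936, 824633720832), (34359738368, 34359738368)] :=
  covD_split 2 (by decide +kernel) B1_c0_t2 B1_c0_t9

theorem B1_c0 : CovD 1 gB1 [(9162457088, 1832910848), (5222680231936, 824633720832), (68719476736, 68719476736)] :=
  covD_split 2 (by decide +kernel) B1_c0_t1 B1_c0_t10

theorem D1_c0_t2 : CovD 1 gD1 [(9162457088, 1832910848), (5222680231936, 824633720832), (215902584832, 215902584832)] :=
  covD_split 2 (by decide +kernel) D1_c0_t3 D1_c0_t4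

theorem D1_c0_t5 : CovD 1 gD1 [(9162457088, 1832910848), (5222680231936, 824633720832), (647707754496, 215902584832)] :=
  covD_split 2 (by decide +kernel) D1_c0_t6 D1_c0_t7

theorem D1_c0_t1 : CovD 1 gD1 [(9162457088, 1832910848), (5222680231936, 824633720832), (431805169664, 431805169664)] :=
  covD_split 2 (by decide +kernel) D1_c0_t2 D1_c0_t5

theorem D1_c0_t9 : CovD 1 gD1 [(9162457088, 1832910848), (5222680231936, 824633720832), (1079512924160, 215902584832)] :=
  covD_split 2 (by decide +kernel) D1_c0_t10 D1_c0_t11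

theorem D1_c0_t12 : CovD 1 gD1 [(9162457088, 1832910848), (5222680231936, 824633720832), (1511318093824, 215902584832)] :=
  covD_split 2 (by decide +kernel) D1_c0_t13 D1_c0_t14

theorem D1_c0_t8 : CovD 1 gD1 [(9162457088, 1832910848), (5222680231936, 824633720832), (1295415508992, 431805169664)] :=
  covD_split 2 (by decide +kernel) D1_c0_t9 D1_c0_t12

theorem D1_c0 : CovD 1 gD1 [(9162457088, 1832910848), (5222680231936, 824633720832), (863610339328, 863610339328)] :=
  covD_split 2 (by decide +kernel) D1_c0_t1 D1_c0_t8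

theorem E1_c0_t4 : CovD 1 gE1 [(9162457088, 1832910848), (5222680231936, 824633720832), (53975646208, 53975646208)] :=
  covD_split 1 (by decide +kernel) E1_c0_t5 E1_c0_t6

theorem E1_c0_t3 : CovD 1 gE1 [(9162457088, 1832910848), (5222680231936, 824633720832), (107951292416, 107951292416)] :=
  covD_split 2 (by decide +kernel) E1_c0_t4 E1_c0_t7

theorem E1_c0_t8 : CovD 1 gE1 [(9162457088, 1832910848), (5222680231936, 824633720832), (323853877248, 107951292416)] :=
  covD_split 2 (by decide +kernel) E1_c0_t9 E1_c0_t10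

theorem E1_c0_t2 : CovD 1 gE1 [(9162457088, 1832910848), (5222680231936, 824633720832), (215902584832, 215902584832)] :=
  covD_split 2 (by decide +kernel) E1_c0_t3 E1_c0_t8

theorem E1_c0_t11 : CovD 1 gE1 [(9162457088, 1832910848), (5222680231936, 824633720832), (647707754496, 215902584832)] :=
  covD_split 2 (by decide +kernel) E1_c0_t12 E1_c0_t13

theorem E1_c0_t1 : CovD 1 gE1 [(9162457088, 1832910848), (5222680231936, 824633720832), (431805169664, 431805169664)] :=
  covD_split 2 (by decide +kernel) E1_c0_t2 E1_c0_t11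

theorem E1_c0_t15 : CovD 1 gE1 [(9162457088, 1832910848), (5222680231936, 824633720832), (1079512924160, 215902584832)] :=
  covD_split 2 (by decide +kernel) E1_c0_t16 E1_c0_t17

theorem E1_c0_t18 : CovD 1 gE1 [(9162457088, 1832910848), (5222680231936, 824633720832), (1511318093824, 215902584832)] :=
  covD_split 2 (by decide +kernel) E1_c0_t19 E1_c0_t20

theorem E1_c0_t14 : CovD 1 gE1 [(9162457088, 1832910848), (5222680231936, 824633720832), (1295415508992, 431805169664)] :=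
  covD_split 2 (by decide +kernel) E1_c0_t15 E1_c0_t18

theorem E1_c0 : CovD 1 gE1 [(9162457088, 1832910848), (5222680231936, 824633720832), (863610339328, 863610339328)] :=
  covD_split 2 (by decide +kernel) E1_c0_t1 E1_c0_t14

end Pool.Agent.helper14.NS.Q100f
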