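import Pool.Agent.helper14.NS.Q100f.PN3

/-!
Generated: certificates.
-/

namespace Pool.Agent.helper14.NS.Q100f

open Pool.Agent.helper31.IA (Z)
open Pool.Agent.helper31.IX (Op XOps runX Cov CovD cov_split covD_split)
open Pool.Agent.helper31.IC (TD)
open Pool.Agent.helper63.RG (reloc)
open Pool.Agent.helper63.NF hiding TD
open Pool.Agent.helper4.NS
open Pool.Agent.helper14.CF (xE covD_E)
open Pool.Agent.helper14.NR (share)

mutual
theorem A3_c0_t4 : CovD 1 gA3 [(7787773952, 458227712), (4810363371520, 412316860416), (2199023255552, 2199023255552)] :=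
  covD_E kA3_eq (.n 1 (.n 2 (.n 2 (.l 0) (.l 0)) (.n 2 (.l 0) (.n 0 (.l 0) (.l 0)))) (.n 2 (.n 2 (.l 0) (.l 0)) (.n 2 (.l 0) (.l 0))))
    [(7787773952, 458227712), (4810363371520, 412316860416), (2199023255552, 2199023255552)] rfl (by decide +kernel)
theorem A3_c0_t5 : CovD 1 gA3 [(7787773952, 458227712), (4810363371520, 412316860416), (6597069766656, 2199023255552)] :=
  covD_E kA3_eq (.n 2 (.n 2 (.n 2 (.n 0 (.n 2 (.n 1 (.l 1) (.n 2 (.l 0) (.l 1))) (.l 1)) (.n 2 (.n 1 (.n 0 (.l 1) (.l 1)) (.l 0)) (.l 1))) (.l 1)) (.l 1)) (.l 1))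
    [(7787773952, 458227712), (4810363371520, 412316860416), (6597069766656, 2199023255552)] rfl (by decide +kernel)
end

mutual
theorem A3_c0_t7 : CovD 1 gA3 [(7787773952, 458227712), (5634997092352, 412316860416), (2199023255552, 2199023255552)] :=
  covD_E kA3_eq (.n 1 (.n 2 (.n 2 (.l 0) (.l 0)) (.n 2 (.l 0) (.l 0))) (.n 2 (.n 2 (.l 0) (.l 0)) (.n 2 (.l 0) (.l 0))))
    [(7787773952, 458227712), (5634997092352, 412316860416), (2199023255552, 2199023255552)] rfl (by decide +kernel)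
theorem A3_c0_t8 : CovD 1 gA3 [(7787773952, 458227712), (5634997092352, 412316860416), (6597069766656, 2199023255552)] :=
  covD_E kA3_eq (.n 2 (.n 2 (.n 2 (.n 2 (.l 0) (.n 1 (.n 0 (.l 1) (.n 0 (.l 1) (.l 0))) (.l 0))) (.n 1 (.l 1) (.n 0 (.l 1) (.n 0 (.l 1) (.l 1))))) (.l 1)) (.l 1))
    [(7787773952, 458227712), (5634997092352, 412316860416), (6597069766656, 2199023255552)] rfl (by decide +kernel)
end

mutual
theorem A3_c0_t11 : CovD 1 gA3 [(8704229376, 458227712), (4810363371520, 412316860416), (2199023255552, 2199023255552)] :=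
  covD_E kA3_eq (.n 1 (.n 2 (.n 2 (.l 0) (.l 0)) (.n 2 (.l 0) (.l 0))) (.n 2 (.n 2 (.l 0) (.l 0)) (.n 2 (.l 0) (.l 0))))
    [(8704229376, 458227712), (4810363371520, 412316860416), (2199023255552, 2199023255552)] rfl (by decide +kernel)
theorem A3_c0_t12 : CovD 1 gA3 [(8704229376, 458227712), (4810363371520, 412316860416), (6597069766656, 2199023255552)] :=
  covD_E kA3_eq (.n 2 (.n 2 (.n 1 (.n 2 (.n 2 (.n 2 (.l 0) (.l 1)) (.l 1)) (.l 1)) (.n 2 (.n 2 (.l 0) (.n 0 (.l 1) (.l 1))) (.l 1))) (.l 1)) (.l 1))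
    [(8704229376, 458227712), (4810363371520, 412316860416), (6597069766656, 2199023255552)] rfl (by decide +kernel)
end

mutual
theorem A3_c0_t14 : CovD 1 gA3 [(8704229376, 458227712), (5634997092352, 412316860416), (2199023255552, 2199023255552)] :=
  covD_E kA3_eq (.n 1 (.n 2 (.n 2 (.l 0) (.l 0)) (.n 2 (.l 0) (.l 0))) (.n 2 (.n 2 (.l 0) (.l 0)) (.n 2 (.l 0) (.l 0))))
    [(8704229376, 458227712), (5634997092352, 412316860416), (2199023255552, 2199023255552)] rfl (by decide +kernel)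
theorem A3_c0_t15 : CovD 1 gA3 [(8704229376, 458227712), (5634997092352, 412316860416), (6597069766656, 2199023255552)] :=
  covD_E kA3_eq (.n 2 (.n 1 (.n 2 (.n 0 (.n 2 (.l 0) (.l 1)) (.n 2 (.l 0) (.l 1))) (.l 1)) (.n 2 (.n 2 (.l 0) (.n 2 (.n 0 (.l 0) (.l 0)) (.l 1))) (.l 1))) (.l 1))
    [(8704229376, 458227712), (5634997092352, 412316860416), (6597069766656, 2199023255552)] rfl (by decide +kernel)
end

mutual
theorem A3_c0_t18 : CovD 1 gA3 [(10078912512, 916455424), (4810363371520, 412316860416), (2199023255552, 2199023255552)] :=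
  covD_E kA3_eq (.n 0 (.n 1 (.n 2 (.n 2 (.l 0) (.l 0)) (.n 2 (.l 0) (.l 0))) (.n 2 (.n 2 (.l 0) (.l 0)) (.n 2 (.l 0) (.l 0)))) (.n 1 (.n 2 (.n 2 (.l 0) (.l 0)) (.n 2 (.l 0) (.l 0))) (.n 2 (.n 2 (.l 0) (.l 0)) (.n 2 (.l 0) (.l 0)))))
    [(10078912512, 916455424), (4810363371520, 412316860416), (2199023255552, 2199023255552)] rfl (by decide +kernel)
theorem A3_c0_t21 : CovD 1 gA3 [(10078912512, 916455424), (4604204941312, 206158430208), (5497558138880, 1099511627776)] :=
  covD_E kA3_eq (.n 2 (.n 2 (.n 0 (.n 2 (.n 0 (.l 0) (.l 0)) (.l 1)) (.n 2 (.l 0) (.n 0 (.l 1) (.n 0 (.l 1) (.l 0))))) (.l 1)) (.l 1))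
    [(10078912512, 916455424), (4604204941312, 206158430208), (5497558138880, 1099511627776)] rfl (by decide +kernel)
end

mutual
theorem A3_c0_t22 : CovD 1 gA3 [(10078912512, 916455424), (5016521801728, 206158430208), (5497558138880, 1099511627776)] :=
  covD_E kA3_eq (.n 2 (.n 0 (.n 2 (.n 2 (.l 0) (.n 2 (.l 0) (.l 1))) (.l 1)) (.n 2 (.l 0) (.n 2 (.l 1) (.l 1)))) (.l 1))
    [(10078912512, 916455424), (5016521801728, 206158430208), (5497558138880, 1099511627776)] rfl (by decide +kernel)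
theorem A3_c0_t23 : CovD 1 gA3 [(10078912512, 916455424), (4810363371520, 412316860416), (7696581394432, 1099511627776)] :=
  covD_E kA3_eq (.l 1)
    [(10078912512, 916455424), (4810363371520, 412316860416), (7696581394432, 1099511627776)] rfl (by decide +kernel)
end

mutual
theorem A3_c0_t25 : CovD 1 gA3 [(10078912512, 916455424), (5634997092352, 412316860416), (2199023255552, 2199023255552)] :=
  covD_E kA3_eq (.n 0 (.n 1 (.n 2 (.n 2 (.l 0) (.l 0)) (.n 2 (.l 0) (.l 0))) (.n 2 (.n 2 (.l 0) (.l 0)) (.n 2 (.l 0) (.l 0)))) (.n 1 (.n 2 (.n 2 (.l 0) (.l 0)) (.n 2 (.l 0) (.l 0))) (.n 2 (.n 2 (.l 0) (.l 0)) (.n 2 (.l 0) (.l 0)))))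
    [(10078912512, 916455424), (5634997092352, 412316860416), (2199023255552, 2199023255552)] rfl (by decide +kernel)
theorem A3_c0_t27 : CovD 1 gA3 [(10078912512, 916455424), (5634997092352, 412316860416), (5497558138880, 1099511627776)] :=
  covD_E kA3_eq (.n 2 (.n 1 (.n 2 (.l 0) (.n 0 (.n 2 (.n 0 (.l 1) (.l 0)) (.l 1)) (.n 2 (.l 0) (.l 1)))) (.n 0 (.n 2 (.l 0) (.n 0 (.n 2 (.l 0) (.l 1)) (.l 0))) (.l 0))) (.n 2 (.n 1 (.l 1) (.n 0 (.l 1) (.n 0 (.l 1) (.l 1)))) (.l 1)))
    [(10078912512, 916455424), (5634997092352, 412316860416), (5497558138880, 1099511627776)] rfl (by decide +kernel)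
end

mutual
theorem A3_c0_t28 : CovD 1 gA3 [(10078912512, 916455424), (5634997092352, 412316860416), (7696581394432, 1099511627776)] :=
  covD_E kA3_eq (.n 0 (.l 1) (.l 1))
    [(10078912512, 916455424), (5634997092352, 412316860416), (7696581394432, 1099511627776)] rfl (by decide +kernel)
theorem B3_c0_t2 : CovD 1 gB3 [(8246001664, 916455424), (5222680231936, 824633720832), (34359738368, 34359738368)] :=
  covD_E kB3_eq (.n 2 (.n 2 (.n 2 (.n 0 (.n 2 (.l 1) (.l 1)) (.n 2 (.l 1) (.l 1))) (.n 2 (.l 1) (.l 1))) (.n 2 (.n 2 (.l 1) (.l 1)) (.n 0 (.l 1) (.l 1)))) (.n 2 (.n 2 (.l 1) (.l 1)) (.n 0 (.l 1) (.l 1))))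
    [(8246001664, 916455424), (5222680231936, 824633720832), (34359738368, 34359738368)] rfl (by decide +kernel)
end

mutual
theorem B3_c0_t3 : CovD 1 gB3 [(8246001664, 916455424), (5222680231936, 824633720832), (103079215104, 34359738368)] :=
  covD_E kB3_eq (.n 2 (.n 2 (.l 1) (.l 1)) (.n 1 (.l 1) (.l 1)))
    [(8246001664, 916455424), (5222680231936, 824633720832), (103079215104, 34359738368)] rfl (by decide +kernel)
theorem B3_c0_t4 : CovD 1 gB3 [(10078912512, 916455424), (5222680231936, 824633720832), (68719476736, 68719476736)] :=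
  covD_E kB3_eq (.n 2 (.n 2 (.n 2 (.n 2 (.n 2 (.l 1) (.l 1)) (.n 2 (.l 1) (.l 1))) (.n 2 (.n 0 (.l 1) (.l 1)) (.l 1))) (.n 2 (.n 2 (.l 1) (.l 1)) (.n 0 (.l 1) (.l 1)))) (.n 2 (.n 2 (.l 1) (.l 1)) (.n 1 (.l 1) (.l 1))))
    [(10078912512, 916455424), (5222680231936, 824633720832), (68719476736, 68719476736)] rfl (by decide +kernel)
end

mutual
theorem D3_c0_t2 : CovD 1 gD3 [(9162457088, 1832910848), (5222680231936, 824633720832), (215902584832, 215902584832)] :=
  covD_E kD3_eq (.n 2 (.n 2 (.n 1 (.n 1 (.l 0) (.l 0)) (.n 1 (.l 0) (.l 0))) (.n 1 (.n 1 (.l 0) (.l 0)) (.n 1 (.l 0) (.l 0)))) (.n 2 (.n 1 (.n 1 (.l 0) (.l 0)) (.n 1 (.l 0) (.l 0))) (.n 1 (.n 1 (.l 0) (.l 0)) (.n 1 (.l 0) (.l 0)))))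
    [(9162457088, 1832910848), (5222680231936, 824633720832), (215902584832, 215902584832)] rfl (by decide +kernel)
theorem D3_c0_t3 : CovD 1 gD3 [(9162457088, 1832910848), (5222680231936, 824633720832), (647707754496, 215902584832)] :=
  covD_E kD3_eq (.n 2 (.n 2 (.n 1 (.n 1 (.l 0) (.l 0)) (.n 1 (.l 0) (.l 0))) (.n 1 (.n 1 (.l 0) (.l 0)) (.n 1 (.l 0) (.l 0)))) (.n 2 (.n 1 (.n 1 (.l 0) (.l 0)) (.n 1 (.l 0) (.l 0))) (.n 1 (.n 1 (.l 0) (.l 0)) (.n 1 (.l 0) (.l 0)))))
    [(9162457088, 1832910848), (5222680231936, 824633720832), (647707754496, 215902584832)] rfl (by decide +kernel)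
end

mutual
theorem D3_c0_t5 : CovD 1 gD3 [(9162457088, 1832910848), (5222680231936, 824633720832), (1079512924160, 215902584832)] :=
  covD_E kD3_eq (.n 2 (.n 2 (.n 1 (.n 1 (.l 0) (.l 0)) (.n 1 (.l 0) (.l 0))) (.n 1 (.n 1 (.l 0) (.l 0)) (.n 1 (.l 0) (.l 0)))) (.n 2 (.n 1 (.n 1 (.l 0) (.l 0)) (.n 1 (.l 0) (.l 0))) (.n 1 (.n 1 (.l 0) (.l 0)) (.n 1 (.l 0) (.l 0)))))
    [(9162457088, 1832910848), (5222680231936, 824633720832), (1079512924160, 215902584832)] rfl (by decide +kernel)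
theorem D3_c0_t6 : CovD 1 gD3 [(9162457088, 1832910848), (5222680231936, 824633720832), (1511318093824, 215902584832)] :=
  covD_E kD3_eq (.n 2 (.n 2 (.n 1 (.n 1 (.l 0) (.l 0)) (.n 1 (.l 0) (.l 0))) (.n 1 (.n 1 (.l 0) (.l 0)) (.n 1 (.l 0) (.l 0)))) (.n 2 (.n 1 (.n 1 (.l 0) (.l 0)) (.n 1 (.l 0) (.l 0))) (.n 1 (.n 1 (.l 0) (.l 0)) (.n 1 (.l 0) (.l 0)))))
    [(9162457088, 1832910848), (5222680231936, 824633720832), (1511318093824, 215902584832)] rfl (by decide +kernel)
end

mutual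
theorem E3_c0_t4 : CovD 1 gE3 [(9162457088, 1832910848), (5222680231936, 824633720832), (53975646208, 53975646208)] :=
  covD_E kE3_eq (.n 2 (.l 1) (.n 1 (.l 1) (.l 1)))
    [(9162457088, 1832910848), (5222680231936, 824633720832), (53975646208, 53975646208)] rfl (by decide +kernel)
theorem E3_c0_t5 : CovD 1 gE3 [(9162457088, 1832910848), (5222680231936, 824633720832), (161926938624, 53975646208)] :=
  covD_E kE3_eq (.n 0 (.n 1 (.n 2 (.n 1 (.l 0) (.l 0)) (.l 0)) (.n 1 (.n 2 (.l 0) (.l 0)) (.n 2 (.l 0) (.l 0)))) (.n 1 (.n 0 (.n 2 (.l 0) (.l 0)) (.n 2 (.l 0) (.l 0))) (.n 2 (.l 1) (.n 1 (.l 0) (.l 0)))))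
    [(9162457088, 1832910848), (5222680231936, 824633720832), (161926938624, 53975646208)] rfl (by decide +kernel)
end

mutual
theorem E3_c0_t7 : CovD 1 gE3 [(9162457088, 1832910848), (5222680231936, 824633720832), (269878231040, 53975646208)] :=
  covD_E kE3_eq (.n 1 (.n 1 (.n 2 (.l 0) (.l 0)) (.n 2 (.l 0) (.l 0))) (.n 1 (.n 2 (.n 0 (.l 0) (.l 0)) (.l 0)) (.n 0 (.n 2 (.l 0) (.l 0)) (.n 1 (.l 0) (.l 0)))))
    [(9162457088, 1832910848), (5222680231936, 824633720832), (269878231040, 53975646208)] rfl (by decide +kernel)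
theorem E3_c0_t8 : CovD 1 gE3 [(9162457088, 1832910848), (5222680231936, 824633720832), (377829523456, 53975646208)] :=
  covD_E kE3_eq (.n 0 (.n 0 (.n 1 (.n 2 (.l 0) (.l 0)) (.n 1 (.l 0) (.l 0))) (.n 1 (.n 1 (.l 0) (.l 0)) (.n 1 (.l 0) (.l 0)))) (.n 1 (.n 1 (.l 0) (.l 0)) (.n 1 (.l 0) (.n 0 (.l 0) (.l 0)))))
    [(9162457088, 1832910848), (5222680231936, 824633720832), (377829523456, 53975646208)] rfl (by decide +kernel)
end

mutual
theorem E3_c0_t10 : CovD 1 gE3 [(9162457088, 1832910848), (5222680231936, 824633720832), (539756462080, 107951292416)] :=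
  covD_E kE3_eq (.n 2 (.n 0 (.n 1 (.n 1 (.l 0) (.l 0)) (.n 1 (.l 0) (.l 0))) (.n 1 (.n 1 (.l 0) (.l 0)) (.n 1 (.l 0) (.l 0)))) (.n 1 (.n 1 (.l 0) (.n 0 (.l 0) (.l 0))) (.n 0 (.n 1 (.l 0) (.l 0)) (.n 1 (.l 0) (.l 0)))))
    [(9162457088, 1832910848), (5222680231936, 824633720832), (539756462080, 107951292416)] rfl (by decide +kernel)
theorem E3_c0_t11 : CovD 1 gE3 [(9162457088, 1832910848), (5222680231936, 824633720832), (755659046912, 107951292416)] :=
  covD_E kE3_eq (.n 2 (.n 1 (.n 1 (.l 0) (.l 0)) (.n 0 (.n 1 (.l 0) (.l 0)) (.n 1 (.l 0) (.l 0)))) (.n 1 (.n 1 (.l 0) (.l 0)) (.n 0 (.n 1 (.l 0) (.l 0)) (.n 1 (.l 0) (.l 0)))))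
    [(9162457088, 1832910848), (5222680231936, 824633720832), (755659046912, 107951292416)] rfl (by decide +kernel)
end

mutual
theorem E3_c0_t14 : CovD 1 gE3 [(9162457088, 1832910848), (5222680231936, 824633720832), (971561631744, 107951292416)] :=
  covD_E kE3_eq (.n 2 (.n 1 (.n 1 (.l 0) (.l 0)) (.n 0 (.n 1 (.l 0) (.l 0)) (.n 1 (.l 0) (.l 0)))) (.n 1 (.n 1 (.l 0) (.l 0)) (.n 0 (.n 1 (.l 0) (.l 0)) (.n 1 (.l 0) (.l 0)))))
    [(9162457088, 1832910848), (5222680231936, 824633720832), (971561631744, 107951292416)] rfl (by decide +kernel)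
theorem E3_c0_t15 : CovD 1 gE3 [(9162457088, 1832910848), (5222680231936, 824633720832), (1187464216576, 107951292416)] :=
  covD_E kE3_eq (.n 2 (.n 1 (.n 1 (.l 0) (.l 0)) (.n 0 (.n 1 (.l 0) (.l 0)) (.n 1 (.l 0) (.l 0)))) (.n 1 (.n 1 (.l 0) (.l 0)) (.n 0 (.n 1 (.l 0) (.l 0)) (.n 1 (.l 0) (.l 0)))))
    [(9162457088, 1832910848), (5222680231936, 824633720832), (1187464216576, 107951292416)] rfl (by decide +kernel)
end

mutual
theorem E3_c0_t17 : CovD 1 gE3 [(9162457088, 1832910848), (5222680231936, 824633720832), (1403366801408, 107951292416)] :=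
  covD_E kE3_eq (.n 2 (.n 1 (.n 1 (.l 0) (.l 0)) (.n 1 (.l 0) (.n 0 (.l 0) (.l 0)))) (.n 1 (.n 1 (.l 0) (.l 0)) (.n 1 (.l 0) (.n 0 (.l 0) (.l 0)))))
    [(9162457088, 1832910848), (5222680231936, 824633720832), (1403366801408, 107951292416)] rfl (by decide +kernel)
theorem E3_c0_t18 : CovD 1 gE3 [(9162457088, 1832910848), (5222680231936, 824633720832), (1619269386240, 107951292416)] :=
  covD_E kE3_eq (.n 2 (.n 1 (.n 1 (.l 0) (.l 0)) (.n 1 (.l 0) (.n 0 (.l 0) (.l 0)))) (.n 1 (.n 1 (.l 0) (.l 0)) (.n 1 (.l 0) (.n 0 (.l 0) (.l 0)))))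
    [(9162457088, 1832910848), (5222680231936, 824633720832), (1619269386240, 107951292416)] rfl (by decide +kernel)
end

theorem A3_c0_t3 : CovD 1 gA3 [(7787773952, 458227712), (4810363371520, 412316860416), (4398046511104, 4398046511104)] :=
  covD_split 2 (by decide +kernel) A3_c0_t4 A3_c0_t5

theorem A3_c0_t6 : CovD 1 gA3 [(7787773952, 458227712), (5634997092352, 412316860416), (4398046511104, 4398046511104)] :=
  covD_split 2 (by decide +kernel) A3_c0_t7 A3_c0_t8

theorem A3_c0_t2 : CovD 1 gA3 [(7787773952, 458227712), (5222680231936, 824633720832), (4398046511104, 4398046511104)] :=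
  covD_split 1 (by decide +kernel) A3_c0_t3 A3_c0_t6

theorem A3_c0_t10 : CovD 1 gA3 [(8704229376, 458227712), (4810363371520, 412316860416), (4398046511104, 4398046511104)] :=
  covD_split 2 (by decide +kernel) A3_c0_t11 A3_c0_t12

theorem A3_c0_t13 : CovD 1 gA3 [(8704229376, 458227712), (5634997092352, 412316860416), (4398046511104, 4398046511104)] :=
  covD_split 2 (by decide +kernel) A3_c0_t14 A3_c0_t15

theorem A3_c0_t9 : CovD 1 gA3 [(8704229376, 458227712), (5222680231936, 824633720832), (4398046511104, 4398046511104)] :=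
  covD_split 1 (by decide +kernel) A3_c0_t10 A3_c0_t13

theorem A3_c0_t1 : CovD 1 gA3 [(8246001664, 916455424), (5222680231936, 824633720832), (4398046511104, 4398046511104)] :=
  covD_split 0 (by decide +kernel) A3_c0_t2 A3_c0_t9

theorem A3_c0_t20 : CovD 1 gA3 [(10078912512, 916455424), (4810363371520, 412316860416), (5497558138880, 1099511627776)] :=
  covD_split 1 (by decide +kernel) A3_c0_t21 A3_c0_t22

theorem A3_c0_t19 : CovD 1 gA3 [(10078912512, 916455424), (4810363371520, 412316860416), (6597069766656, 2199023255552)] :=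
  covD_split 2 (by decide +kernel) A3_c0_t20 A3_c0_t23

theorem A3_c0_t17 : CovD 1 gA3 [(10078912512, 916455424), (4810363371520, 412316860416), (4398046511104, 4398046511104)] :=
  covD_split 2 (by decide +kernel) A3_c0_t18 A3_c0_t19

theorem A3_c0_t26 : CovD 1 gA3 [(10078912512, 916455424), (5634997092352, 412316860416), (6597069766656, 2199023255552)] :=
  covD_split 2 (by decide +kernel) A3_c0_t27 A3_c0_t28

theorem A3_c0_t24 : CovD 1 gA3 [(10078912512, 916455424), (5634997092352, 412316860416), (4398046511104, 4398046511104)] :=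
  covD_split 2 (by decide +kernel) A3_c0_t25 A3_c0_t26

theorem A3_c0_t16 : CovD 1 gA3 [(10078912512, 916455424), (5222680231936, 824633720832), (4398046511104, 4398046511104)] :=
  covD_split 1 (by decide +kernel) A3_c0_t17 A3_c0_t24

theorem A3_c0 : CovD 1 gA3 [(9162457088, 1832910848), (5222680231936, 824633720832), (4398046511104, 4398046511104)] :=
  covD_split 0 (by decide +kernel) A3_c0_t1 A3_c0_t16

theorem B3_c0_t1 : CovD 1 gB3 [(8246001664, 916455424), (5222680231936, 824633720832), (68719476736, 68719476736)] :=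
  covD_split 2 (by decide +kernel) B3_c0_t2 B3_c0_t3

theorem B3_c0 : CovD 1 gB3 [(9162457088, 1832910848), (5222680231936, 824633720832), (68719476736, 68719476736)] :=
  covD_split 0 (by decide +kernel) B3_c0_t1 B3_c0_t4

theorem D3_c0_t1 : CovD 1 gD3 [(9162457088, 1832910848), (5222680231936, 824633720832), (431805169664, 431805169664)] :=
  covD_split 2 (by decide +kernel) D3_c0_t2 D3_c0_t3

theorem D3_c0_t4 : CovD 1 gD3 [(9162457088, 1832910848), (5222680231936, 824633720832), (1295415508992, 431805169664)] :=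
  covD_split 2 (by decide +kernel) D3_c0_t5 D3_c0_t6

theorem D3_c0 : CovD 1 gD3 [(9162457088, 1832910848), (5222680231936, 824633720832), (863610339328, 863610339328)] :=
  covD_split 2 (by decide +kernel) D3_c0_t1 D3_c0_t4

theorem E3_c0_t3 : CovD 1 gE3 [(9162457088, 1832910848), (5222680231936, 824633720832), (107951292416, 107951292416)] :=
  covD_split 2 (by decide +kernel) E3_c0_t4 E3_c0_t5

theorem E3_c0_t6 : CovD 1 gE3 [(9162457088, 1832910848), (5222680231936, 824633720832), (323853877248, 107951292416)] :=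
  covD_split 2 (by decide +kernel) E3_c0_t7 E3_c0_t8

theorem E3_c0_t2 : CovD 1 gE3 [(9162457088, 1832910848), (5222680231936, 824633720832), (215902584832, 215902584832)] :=
  covD_split 2 (by decide +kernel) E3_c0_t3 E3_c0_t6

theorem E3_c0_t9 : CovD 1 gE3 [(9162457088, 1832910848), (5222680231936, 824633720832), (647707754496, 215902584832)] :=
  covD_split 2 (by decide +kernel) E3_c0_t10 E3_c0_t11

theorem E3_c0_t1 : CovD 1 gE3 [(9162457088, 1832910848), (5222680231936, 824633720832), (431805169664, 431805169664)] :=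
  covD_split 2 (by decide +kernel) E3_c0_t2 E3_c0_t9

theorem E3_c0_t13 : CovD 1 gE3 [(9162457088, 1832910848), (5222680231936, 824633720832), (1079512924160, 215902584832)] :=
  covD_split 2 (by decide +kernel) E3_c0_t14 E3_c0_t15

theorem E3_c0_t16 : CovD 1 gE3 [(9162457088, 1832910848), (5222680231936, 824633720832), (1511318093824, 215902584832)] :=
  covD_split 2 (by decide +kernel) E3_c0_t17 E3_c0_t18

theorem E3_c0_t12 : CovD 1 gE3 [(9162457088, 1832910848), (5222680231936, 824633720832), (1295415508992, 431805169664)] :=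
  covD_split 2 (by decide +kernel) E3_c0_t13 E3_c0_t16

theorem E3_c0 : CovD 1 gE3 [(9162457088, 1832910848), (5222680231936, 824633720832), (863610339328, 863610339328)] :=
  covD_split 2 (by decide +kernel) E3_c0_t1 E3_c0_t12

end Pool.Agent.helper14.NS.Q100f
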