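import Pool.Agent.helper14.NS.Q100f.Tab
import Pool.Agent.helper14.NR.Share

/-!
Generated: programs and compiled forms.
-/

namespace Pool.Agent.helper14.NS.Q100f

open Pool.Agent.helper31.IA (Z)
open Pool.Agent.helper31.IX (Op XOps runX Cov CovD cov_split covD_split)
open Pool.Agent.helper31.IC (TD)
open Pool.Agent.helper63.RG (reloc)
open Pool.Agent.helper63.NF hiding TD
open Pool.Agent.helper4.NS
open Pool.Agent.helper14.CF (xE covD_E)
open Pool.Agent.helper14.NR (share)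

def p2_1 : List Op := [
  .const ⟨1099511627776, 0, 0, 0⟩,
  .mul 1 2,
  .scale ⟨2199023255552, 0, 0, 0⟩ 0,
  .exp 1,
  .neg 2,
  .exp 0,
  .mul 2 2,
  .mul 1 1,
  .mul 0 0,
  .add 2 1,
  .scale ⟨549755813888, 0, 0, 0⟩ 0,
  .scale ⟨2199023255552, 0, 0, 0⟩ 12,
  .mul 10 10,
  .lt 0 68719476736,
  .scale ⟨9162596898, 0, 0, 0⟩ 0,
  .const ⟨183251937962, 0, 0, 0⟩,
  .add 1 0,
  .mul 0 3,
  .const ⟨1099511627776, 0, 0, 0⟩,
  .add 1 0,
  .const ⟨65536, 0, 0, 0⟩,
  .rball 1 0,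
  .mul 9 0,
  .add 18 16,
  .scale ⟨549755813888, 0, 0, 0⟩ 0,
  .mul 2 0,
  .mul 3 3,
  .mul 26 0,
  .mul 2 2,
  .mul 28 0,
  .neg 17,
  .exp 0,
  .add 0 30,
  .pos 0,
  .log 0,
  .const ⟨9160359936, 0, 0, 0⟩,
  .sub 34 0,
  .const ⟨5222680231936, 0, 0, 0⟩,
  .sub 37 0,
  .mul 0 0,
  .mul 0 1,
  .mul 4 2,
  .mul 5 5,
  .scale ⟨0, 463600384, 0, 0⟩ 4,
  .scale ⟨0, 76868288, 0, 0⟩ 4,
  .add 1 0,
  .scale ⟨3731968, 0, 0, 0⟩ 5,
  .add 1 0,
  .scale ⟨2371154920256, 0, 0, 0⟩ 11,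
  .add 1 0,
  .scale ⟨35909621888, 0, 0, 0⟩ 8,
  .add 1 0,
  .scale ⟨0, 10662515203904, 0, 0⟩ 9,
  .add 1 0,
  .const ⟨573284934976, 0, 0, 0⟩,
  .add 1 0,
  .scale ⟨184037184, 0, 0, 0⟩ 17,
  .scale ⟨41831360, 0, 0, 0⟩ 17,
  .add 1 0,
  .scale ⟨0, 126775198080, 0, 0⟩ 22,
  .add 1 0,
  .scale ⟨9635357568, 0, 0, 0⟩ 19,
  .add 1 0,
  .const ⟨0, 2150699072, 0, 0⟩,
  .add 1 0,
  .scale ⟨0, 22158528, 0, 0⟩ 26,
  .scale ⟨0, 1556608, 0, 0⟩ 26,
  .add 1 0,
  .scale ⟨2874456704, 0, 0, 0⟩ 31,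
  .add 1 0,
  .const ⟨160027328, 0, 0, 0⟩,
  .add 1 0,
  .scale ⟨1122240, 0, 0, 0⟩ 33,
  .scale ⟨0, 37394368, 0, 0⟩ 36,
  .add 1 0,
  .const ⟨0, 9364864, 0, 0⟩,
  .add 1 0,
  .scale ⟨0, 20608, 0, 0⟩ 38,
  .const ⟨363712, 0, 0, 0⟩,
  .add 1 0,
  .mul 78 80,
  .add 0 68,
  .pos 0,
  .inv 0,
  .mul 73 0,
  .sub 84 57,
  .add 75 2,
  .mul 1 0,
  .mul 3 0,
  .mul 78 61,
  .scale ⟨2199023255552, 0, 0, 0⟩ 0,
  .add 2 0,
  .scale ⟨0, 170458662043648, 0, 0⟩ 54,
  .const ⟨0, 2840315559936, 0, 0⟩,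
  .add 1 0,
  .sub 3 0,
  .pos 0,
  .inv 0,
  .scale ⟨39174379995136, 0, 0, 0⟩ 0,
  .add 2 0,
  .pos 0,
  .inv 0,
  .scale ⟨9649029248, 0, 0, 0⟩ 60,
  .scale ⟨0, 20326425519744, 0, 0⟩ 63,
  .add 1 0,
  .const ⟨0, 172575225472, 0, 0⟩,
  .add 1 0,
  .scale ⟨0, 64997899520, 0, 0⟩ 65,
  .scale ⟨4727830303744, 0, 0, 0⟩ 68,
  .add 1 0,
  .const ⟨67823178624, 0, 0, 0⟩,
  .add 1 0,
  .mul 13 0,
  .add 6 0,
  .mul 0 12,
  .scale ⟨64, 0, 0, 0⟩ 21,
  .const ⟨0, 8256, 0, 0⟩,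
  .add 1 0,
  .mul 24 0,
  .add 0 36,
  .mul 26 0,
  .add 0 41,
  .mul 28 0,
  .add 0 48,
  .mul 30 0,
  .add 0 57,
  .mul 32 0,
  .add 12 68,
  .add 1 0,
  .mul 38 0,
  .add 0 113,
  .neg 0,
  .exp 0,
  .add 0 127,
  .pos 0,
  .log 0,
  .add 132 105,
  .scale ⟨0, 29622272, 0, 0⟩ 94,
  .scale ⟨0, 16906584064, 0, 0⟩ 97,
  .add 1 0,
  .scale ⟨0, 3543072768, 0, 0⟩ 94,
  .add 1 0,
  .const ⟨35592994816, 0, 0, 0⟩,
  .add 1 0,
  .scale ⟨1374389534720, 0, 0, 0⟩ 135,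
  .neg 0,
  .exp 0,
  .mul 3 0,
  .scale ⟨989453090816, 0, 0, 0⟩ 144,
  .add 0 142,
  .pos 0,
  .inv 0,
  .scale ⟨2199023255552, 0, 0, 0⟩ 3,
  .mul 15 0,
  .mul 0 2,
  .mul 0 151,
  .sub 148 0,
  .pos 0,
  .log 0,
  .mul 23 2,
  .add 0 151,
  .pos 0,
  .log 0,
  .sub 0 3,
  .add 29 0,
  .sub 26 123,
  .scale ⟨2199023255552, 0, 0, 0⟩ 0,
  .add 33 0,
  .add 8 5,
  .sub 1 0,
  .mul 161 5,
  .scale ⟨549755813888, 0, 0, 0⟩ 0,
  .mul 0 0,
  .lt 0 68719476736,
  .scale ⟨9162596898, 0, 0, 0⟩ 0,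
  .const ⟨183251937962, 0, 0, 0⟩,
  .add 1 0,
  .mul 0 3,
  .const ⟨1099511627776, 0, 0, 0⟩,
  .add 1 0,
  .const ⟨65536, 0, 0, 0⟩,
  .rball 1 0,
  .exp 9,
  .mul 0 1,
  .mul 18 0,
  .pos 175,
  .inv 175,
  .mul 176 15,
  .exp 0,
  .const ⟨1099511627776, 0, 0, 0⟩,
  .sub 1 0,
  .mul 0 4,
  .mul 170 183,
  .add 0 153,
  .mul 102 0,
  .mul 184 0,
  .add 0 174,
  .pos 0,
  .inv 0,
  .add 98 160,
  .mul 13 0,
  .mul 5 5,
  .scale ⟨2199023255552, 0, 0, 0⟩ 0,
  .sub 2 0,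
  .mul 165 165,
  .scale ⟨549755813888, 0, 0, 0⟩ 0,
  .sub 2 0,
  .mul 195 20,
  .const ⟨2199023255552, 0, 0, 0⟩,
  .add 1 0,
  .mul 17 0,
  .mul 172 0,
  .add 5 0,
  .mul 201 14,
  .mul 0 0,
  .mul 0 2,
  .add 0 203,
  .pos 0,
  .log 0,
  .scale ⟨549755813888, 0, 0, 0⟩ 0,
  .exp 0,
  .add 0 207,
  .pos 0,
  .mul 8 22,
  .inv 1,
  .mul 1 0,
  .mul 212 0,
  .add 29 0,
  .pos 83,
  .inv 83,
  .mul 207 135,
  .mul 1 0,
  .mul 0 5,
  .mul 218 0,
  .add 0 218,
  .pos 0,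
  .mul 34 212,
  .pos 0,
  .log 0,
  .scale ⟨549755813888, 0, 0, 0⟩ 16,
  .add 1 0,
  .mul 0 48,
  .scale ⟨45460094976, 0, 0, 0⟩ 188,
  .scale ⟨6994001920, 0, 0, 0⟩ 188,
  .add 1 0,
  .scale ⟨2159804416, 0, 0, 0⟩ 189,
  .add 1 0,
  .scale ⟨34046421106688, 0, 0, 0⟩ 195,
  .add 1 0,
  .scale ⟨7538313003008, 0, 0, 0⟩ 192,
  .add 1 0,
  .const ⟨383293456384, 0, 0, 0⟩,
  .add 1 0,
  .scale ⟨2199023255552, 0, 0, 0⟩ 233,
  .exp 0,
  .pos 2,
  .mul 20 0,
  .scale ⟨2199023255552, 0, 0, 0⟩ 0,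
  .inv 20,
  .mul 24 0,
  .inv 6,
  .mul 5 0,
  .mul 2 0,
  .mul 5 0,
  .lt 0 1099510579200,
  .const ⟨11839077351424, 0, 0, 0⟩,
  .add 219 0,
  .pos 0,
  .mul 34 34,
  .sub 0 221,
  .inv 2,
  .mul 1 0,
  .lt 0 1099510579200,
  .scale ⟨0, 1703936, 0, 0⟩ 163,
  .const ⟨66387968, 0, 0, 0⟩,
  .add 1 0,
  .mul 166 0,
  .scale ⟨23855104, 0, 0, 0⟩ 219,
  .scale ⟨582031704064, 0, 0, 0⟩ 222,
  .add 1 0,
  .const ⟨3878813696, 0, 0, 0⟩,
  .add 1 0,
  .add 5 0,
  .mul 173 0,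
  .scale ⟨3129016320, 0, 0, 0⟩ 226,
  .scale ⟨173998080, 0, 0, 0⟩ 226,
  .add 1 0,
  .scale ⟨2232935383040, 0, 0, 0⟩ 231,
  .add 1 0,
  .const ⟨1111585062912, 0, 0, 0⟩,
  .add 1 0,
  .add 7 0,
  .scale ⟨1099511627776, 0, 0, 0⟩ 129,
  .pos 0,
  .inv 0,
  .mul 129 58,
  .mul 0 1,
  .scale ⟨549755813888, 0, 0, 0⟩ 0,
  .mul 276 62,
  .add 0 266,
  .pos 0,
  .inv 0,
  .mul 271 0,
  .sub 66 255,
  .add 273 2,
  .mul 1 0,
  .mul 3 0,
  .mul 276 259,
  .scale ⟨2199023255552, 0, 0, 0⟩ 0,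
  .add 2 0,
  .scale ⟨0, 170458662043648, 0, 0⟩ 252,
  .const ⟨0, 2840315559936, 0, 0⟩,
  .add 1 0,
  .sub 3 0,
  .pos 0,
  .inv 0,
  .scale ⟨39174379995136, 0, 0, 0⟩ 0,
  .add 2 0,
  .pos 0,
  .inv 0,
  .scale ⟨9649029248, 0, 0, 0⟩ 258,
  .scale ⟨0, 20326425519744, 0, 0⟩ 261,
  .add 1 0,
  .const ⟨0, 172575225472, 0, 0⟩,
  .add 1 0,
  .scale ⟨0, 64997899520, 0, 0⟩ 263,
  .scale ⟨4727830303744, 0, 0, 0⟩ 266,
  .add 1 0,
  .const ⟨67823178624, 0, 0, 0⟩,
  .add 1 0,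
  .mul 13 0,
  .add 6 0,
  .mul 0 12,
  .scale ⟨64, 0, 0, 0⟩ 21,
  .const ⟨0, 8256, 0, 0⟩,
  .add 1 0,
  .mul 24 0,
  .add 0 234,
  .mul 26 0,
  .add 0 239,
  .mul 28 0,
  .add 0 246,
  .mul 30 0,
  .add 0 255,
  .mul 32 0,
  .add 12 266,
  .add 1 0,
  .mul 38 0,
  .add 0 311,
  .neg 0,
  .exp 0,
  .add 0 325,
  .pos 0,
  .log 0,
  .scale ⟨769604452352, 0, 0, 0⟩ 114,
  .add 0 328,
  .pos 0,
  .inv 0,
  .scale ⟨14942208, 0, 0, 0⟩ 294,
  .scale ⟨8503689216, 0, 0, 0⟩ 297,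
  .add 1 0,
  .scale ⟨1794310144, 0, 0, 0⟩ 294,
  .add 1 0,
  .const ⟨35804938240, 0, 0, 0⟩,
  .add 1 0,
  .scale ⟨2886218022912, 0, 0, 0⟩ 335,
  .neg 0,
  .exp 0,
  .mul 3 0,
  .scale ⟨1099511627776, 0, 0, 0⟩ 0,
  .mul 0 70,
  .mul 337 263,
  .mul 0 125,
  .mul 2 0,
  .mul 203 16,
  .mul 1 0,
  .add 224 219,
  .sub 0 22,
  .sub 0 126,
  .exp 0,
  .const ⟨0, 0, 0, 0⟩,
  .mul 83 1,
  .mul 0 29,
  .mul 0 7,
  .rball 3 0,
  .sub 357 87,
  .mul 362 0,
  .sub 359 7,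
  .scale ⟨1099511627776, 0, 0, 0⟩ 0,
  .mul 0 86,
  .mul 92 0,
  .add 4 0,
  .add 0 7,
  .lt 0 1099510579200]

set_option maxRecDepth 1000000 in
noncomputable def c2_1 {α : Type} (cst : Z → α) (add sub mul : α → α → α) (scale : Z → α → α)
    (neg inv exp log : α → α) (ok : α → Bool) (isPos : Nat → α → Bool) (isLt : α → Nat → Bool)
    (ball : Nat → α → α) (rball : α → α → α) : List α → Bool
  | [x0, x1, x2, x3] =>
  let v0 := cst ⟨1099511627776, 0, 0, 0⟩; ok v0 && (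
  let v1 := mul x0 x1; ok v1 && (
  let v2 := scale ⟨2199023255552, 0, 0, 0⟩ v1; ok v2 && (
  let v3 := exp v1; ok v3 && (
  let v4 := neg v1; ok v4 && (
  let v5 := exp v4; ok v5 && (
  let v6 := mul v3 v3; ok v6 && (
  let v7 := mul v5 v5; ok v7 && (
  let v8 := mul v7 v7; ok v8 && (
  let v9 := add v6 v7; ok v9 && (
  let v10 := scale ⟨549755813888, 0, 0, 0⟩ v9; ok v10 && (
  let v11 := scale ⟨2199023255552, 0, 0, 0⟩ x1; ok v11 && (
  let v12 := mul v1 v1; ok v12 && (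
  isLt v12 68719476736 && (
  let v13 := scale ⟨9162596898, 0, 0, 0⟩ v12; ok v13 && (
  let v14 := cst ⟨183251937962, 0, 0, 0⟩; ok v14 && (
  let v15 := add v13 v14; ok v15 && (
  let v16 := mul v15 v12; ok v16 && (
  let v17 := cst ⟨1099511627776, 0, 0, 0⟩; ok v17 && (
  let v18 := add v16 v17; ok v18 && (
  let v19 := cst ⟨65536, 0, 0, 0⟩; ok v19 && (
  let v20 := rball v18 v19; ok v20 && (
  let v21 := mul v11 v20; ok v21 && (
  let v22 := add v3 v5; ok v22 && (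
  let v23 := scale ⟨549755813888, 0, 0, 0⟩ v22; ok v23 && (
  let v24 := mul v21 v23; ok v24 && (
  let v25 := mul v21 v21; ok v25 && (
  let v26 := mul x0 v25; ok v26 && (
  let v27 := mul v24 v24; ok v27 && (
  let v28 := mul x0 v27; ok v28 && (
  let v29 := neg v11; ok v29 && (
  let v30 := exp v29; ok v30 && (
  let v31 := add v30 v0; ok v31 && (
  isPos 3 v31 && (
  let v32 := log v31; ok v32 && (
  let v33 := cst ⟨9160359936, 0, 0, 0⟩; ok v33 && (
  let v34 := sub x0 v33; ok v34 && (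
  let v35 := cst ⟨5222680231936, 0, 0, 0⟩; ok v35 && (
  let v36 := sub x1 v35; ok v36 && (
  let v37 := mul v36 v36; ok v37 && (
  let v38 := mul v37 v36; ok v38 && (
  let v39 := mul v34 v36; ok v39 && (
  let v40 := mul v34 v34; ok v40 && (
  let v41 := scale ⟨0, 463600384, 0, 0⟩ v36; ok v41 && (
  let v42 := scale ⟨0, 76868288, 0, 0⟩ v37; ok v42 && (
  let v43 := add v41 v42; ok v43 && (
  let v44 := scale ⟨3731968, 0, 0, 0⟩ v38; ok v44 && (
  let v45 := add v43 v44; ok v45 && (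
  let v46 := scale ⟨2371154920256, 0, 0, 0⟩ v34; ok v46 && (
  let v47 := add v45 v46; ok v47 && (
  let v48 := scale ⟨35909621888, 0, 0, 0⟩ v39; ok v48 && (
  let v49 := add v47 v48; ok v49 && (
  let v50 := scale ⟨0, 10662515203904, 0, 0⟩ v40; ok v50 && (
  let v51 := add v49 v50; ok v51 && (
  let v52 := cst ⟨573284934976, 0, 0, 0⟩; ok v52 && (
  let v53 := add v51 v52; ok v53 && (
  let v54 := scale ⟨184037184, 0, 0, 0⟩ v36; ok v54 && (
  let v55 := scale ⟨41831360, 0, 0, 0⟩ v37; ok v55 && (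
  let v56 := add v54 v55; ok v56 && (
  let v57 := scale ⟨0, 126775198080, 0, 0⟩ v34; ok v57 && (
  let v58 := add v56 v57; ok v58 && (
  let v59 := scale ⟨9635357568, 0, 0, 0⟩ v39; ok v59 && (
  let v60 := add v58 v59; ok v60 && (
  let v61 := cst ⟨0, 2150699072, 0, 0⟩; ok v61 && (
  let v62 := add v60 v61; ok v62 && (
  let v63 := scale ⟨0, 22158528, 0, 0⟩ v36; ok v63 && (
  let v64 := scale ⟨0, 1556608, 0, 0⟩ v37; ok v64 && (
  let v65 := add v63 v64; ok v65 && (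
  let v66 := scale ⟨2874456704, 0, 0, 0⟩ v34; ok v66 && (
  let v67 := add v65 v66; ok v67 && (
  let v68 := cst ⟨160027328, 0, 0, 0⟩; ok v68 && (
  let v69 := add v67 v68; ok v69 && (
  let v70 := scale ⟨1122240, 0, 0, 0⟩ v36; ok v70 && (
  let v71 := scale ⟨0, 37394368, 0, 0⟩ v34; ok v71 && (
  let v72 := add v70 v71; ok v72 && (
  let v73 := cst ⟨0, 9364864, 0, 0⟩; ok v73 && (
  let v74 := add v72 v73; ok v74 && (
  let v75 := scale ⟨0, 20608, 0, 0⟩ v36; ok v75 && (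
  let v76 := cst ⟨363712, 0, 0, 0⟩; ok v76 && (
  let v77 := add v75 v76; ok v77 && (
  let v78 := mul x0 x2; ok v78 && (
  let v79 := add v78 v10; ok v79 && (
  isPos 3 v79 && (
  let v80 := inv v79; ok v80 && (
  let v81 := mul v7 v80; ok v81 && (
  let v82 := sub x2 v24; ok v82 && (
  let v83 := add v7 v80; ok v83 && (
  let v84 := mul v82 v83; ok v84 && (
  let v85 := mul v81 v84; ok v85 && (
  let v86 := mul v7 v24; ok v86 && (
  let v87 := scale ⟨2199023255552, 0, 0, 0⟩ v86; ok v87 && (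
  let v88 := add v85 v87; ok v88 && (
  let v89 := scale ⟨0, 170458662043648, 0, 0⟩ v34; ok v89 && (
  let v90 := cst ⟨0, 2840315559936, 0, 0⟩; ok v90 && (
  let v91 := add v89 v90; ok v91 && (
  let v92 := sub v88 v91; ok v92 && (
  isPos 3 v92 && (
  let v93 := inv v92; ok v93 && (
  let v94 := scale ⟨39174379995136, 0, 0, 0⟩ v93; ok v94 && (
  let v95 := add v92 v94; ok v95 && (
  isPos 3 v95 && (
  let v96 := inv v95; ok v96 && (
  let v97 := scale ⟨9649029248, 0, 0, 0⟩ v36; ok v97 && (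
  let v98 := scale ⟨0, 20326425519744, 0, 0⟩ v34; ok v98 && (
  let v99 := add v97 v98; ok v99 && (
  let v100 := cst ⟨0, 172575225472, 0, 0⟩; ok v100 && (
  let v101 := add v99 v100; ok v101 && (
  let v102 := scale ⟨0, 64997899520, 0, 0⟩ v36; ok v102 && (
  let v103 := scale ⟨4727830303744, 0, 0, 0⟩ v34; ok v103 && (
  let v104 := add v102 v103; ok v104 && (
  let v105 := cst ⟨67823178624, 0, 0, 0⟩; ok v105 && (
  let v106 := add v104 v105; ok v106 && (
  let v107 := mul v93 v106; ok v107 && (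
  let v108 := add v101 v107; ok v108 && (
  let v109 := mul v108 v96; ok v109 && (
  let v110 := scale ⟨64, 0, 0, 0⟩ v88; ok v110 && (
  let v111 := cst ⟨0, 8256, 0, 0⟩; ok v111 && (
  let v112 := add v110 v111; ok v112 && (
  let v113 := mul v88 v112; ok v113 && (
  let v114 := add v113 v77; ok v114 && (
  let v115 := mul v88 v114; ok v115 && (
  let v116 := add v115 v74; ok v116 && (
  let v117 := mul v88 v116; ok v117 && (
  let v118 := add v117 v69; ok v118 && (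
  let v119 := mul v88 v118; ok v119 && (
  let v120 := add v119 v62; ok v120 && (
  let v121 := mul v88 v120; ok v121 && (
  let v122 := add v109 v53; ok v122 && (
  let v123 := add v121 v122; ok v123 && (
  let v124 := mul v85 v123; ok v124 && (
  let v125 := add v124 v11; ok v125 && (
  let v126 := neg v125; ok v126 && (
  let v127 := exp v126; ok v127 && (
  let v128 := add v127 v0; ok v128 && (
  isPos 3 v128 && (
  let v129 := log v128; ok v129 && (
  let v130 := add x2 v24; ok v130 && (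
  let v131 := scale ⟨0, 29622272, 0, 0⟩ v36; ok v131 && (
  let v132 := scale ⟨0, 16906584064, 0, 0⟩ v34; ok v132 && (
  let v133 := add v131 v132; ok v133 && (
  let v134 := scale ⟨0, 3543072768, 0, 0⟩ v39; ok v134 && (
  let v135 := add v133 v134; ok v135 && (
  let v136 := cst ⟨35592994816, 0, 0, 0⟩; ok v136 && (
  let v137 := add v135 v136; ok v137 && (
  let v138 := scale ⟨1374389534720, 0, 0, 0⟩ v2; ok v138 && (
  let v139 := neg v138; ok v139 && (
  let v140 := exp v139; ok v140 && (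
  let v141 := mul v137 v140; ok v141 && (
  let v142 := scale ⟨989453090816, 0, 0, 0⟩ x2; ok v142 && (
  let v143 := add v142 v0; ok v143 && (
  isPos 3 v143 && (
  let v144 := inv v143; ok v144 && (
  let v145 := scale ⟨2199023255552, 0, 0, 0⟩ v141; ok v145 && (
  let v146 := mul v130 v145; ok v146 && (
  let v147 := mul v146 v144; ok v147 && (
  let v148 := mul v147 x3; ok v148 && (
  let v149 := sub v0 v148; ok v149 && (
  isPos 3 v149 && (
  let v150 := log v149; ok v150 && (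
  let v151 := mul v127 v148; ok v151 && (
  let v152 := add v151 v0; ok v152 && (
  isPos 3 v152 && (
  let v153 := log v152; ok v153 && (
  let v154 := sub v153 v150; ok v154 && (
  let v155 := add v125 v154; ok v155 && (
  let v156 := sub v129 v32; ok v156 && (
  let v157 := scale ⟨2199023255552, 0, 0, 0⟩ v156; ok v157 && (
  let v158 := add v124 v157; ok v158 && (
  let v159 := add v150 v153; ok v159 && (
  let v160 := sub v158 v159; ok v160 && (
  let v161 := mul x0 v155; ok v161 && (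
  let v162 := scale ⟨549755813888, 0, 0, 0⟩ v161; ok v162 && (
  let v163 := mul v162 v162; ok v163 && (
  isLt v163 68719476736 && (
  let v164 := scale ⟨9162596898, 0, 0, 0⟩ v163; ok v164 && (
  let v165 := cst ⟨183251937962, 0, 0, 0⟩; ok v165 && (
  let v166 := add v164 v165; ok v166 && (
  let v167 := mul v166 v163; ok v167 && (
  let v168 := cst ⟨1099511627776, 0, 0, 0⟩; ok v168 && (
  let v169 := add v167 v168; ok v169 && (
  let v170 := cst ⟨65536, 0, 0, 0⟩; ok v170 && (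
  let v171 := rball v169 v170; ok v171 && (
  let v172 := exp v162; ok v172 && (
  let v173 := mul v172 v171; ok v173 && (
  let v174 := mul v155 v173; ok v174 && (
  isPos 3 x0 && (
  let v175 := inv x0; ok v175 && (
  let v176 := mul x0 v160; ok v176 && (
  let v177 := exp v176; ok v177 && (
  let v178 := cst ⟨1099511627776, 0, 0, 0⟩; ok v178 && (
  let v179 := sub v177 v178; ok v179 && (
  let v180 := mul v179 v175; ok v180 && (
  let v181 := mul v10 x2; ok v181 && (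
  let v182 := add v181 v28; ok v182 && (
  let v183 := mul v80 v182; ok v183 && (
  let v184 := mul x0 v183; ok v184 && (
  let v185 := add v184 v10; ok v185 && (
  isPos 3 v185 && (
  let v186 := inv v185; ok v186 && (
  let v187 := add v88 v26; ok v187 && (
  let v188 := mul v174 v187; ok v188 && (
  let v189 := mul v183 v183; ok v189 && (
  let v190 := scale ⟨2199023255552, 0, 0, 0⟩ v189; ok v190 && (
  let v191 := sub v188 v190; ok v191 && (
  let v192 := mul v26 v26; ok v192 && (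
  let v193 := scale ⟨549755813888, 0, 0, 0⟩ v192; ok v193 && (
  let v194 := sub v191 v193; ok v194 && (
  let v195 := mul x0 v174; ok v195 && (
  let v196 := cst ⟨2199023255552, 0, 0, 0⟩; ok v196 && (
  let v197 := add v195 v196; ok v197 && (
  let v198 := mul v180 v197; ok v198 && (
  let v199 := mul v26 v198; ok v199 && (
  let v200 := add v194 v199; ok v200 && (
  let v201 := mul x0 v186; ok v201 && (
  let v202 := mul v201 v201; ok v202 && (
  let v203 := mul v202 v200; ok v203 && (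
  let v204 := add v203 v0; ok v204 && (
  isPos 3 v204 && (
  let v205 := log v204; ok v205 && (
  let v206 := scale ⟨549755813888, 0, 0, 0⟩ v205; ok v206 && (
  let v207 := exp v206; ok v207 && (
  let v208 := add v207 v0; ok v208 && (
  isPos 3 v208 && (
  let v209 := mul v200 v186; ok v209 && (
  let v210 := inv v208; ok v210 && (
  let v211 := mul v209 v210; ok v211 && (
  let v212 := mul x0 v211; ok v212 && (
  let v213 := add v183 v212; ok v213 && (
  isPos 3 v130 && (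
  let v214 := inv v130; ok v214 && (
  let v215 := mul v7 v79; ok v215 && (
  let v216 := mul v214 v215; ok v216 && (
  let v217 := mul v216 v211; ok v217 && (
  let v218 := mul x0 v217; ok v218 && (
  let v219 := add v218 v0; ok v219 && (
  isPos 3 v219 && (
  let v220 := mul v185 v7; ok v220 && (
  isPos 3 v220 && (
  let v221 := log v220; ok v221 && (
  let v222 := scale ⟨549755813888, 0, 0, 0⟩ v205; ok v222 && (
  let v223 := add v221 v222; ok v223 && (
  let v224 := mul v223 v175; ok v224 && (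
  let v225 := scale ⟨45460094976, 0, 0, 0⟩ v36; ok v225 && (
  let v226 := scale ⟨6994001920, 0, 0, 0⟩ v37; ok v226 && (
  let v227 := add v225 v226; ok v227 && (
  let v228 := scale ⟨2159804416, 0, 0, 0⟩ v38; ok v228 && (
  let v229 := add v227 v228; ok v229 && (
  let v230 := scale ⟨34046421106688, 0, 0, 0⟩ v34; ok v230 && (
  let v231 := add v229 v230; ok v231 && (
  let v232 := scale ⟨7538313003008, 0, 0, 0⟩ v39; ok v232 && (
  let v233 := add v231 v232; ok v233 && (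
  let v234 := cst ⟨383293456384, 0, 0, 0⟩; ok v234 && (
  let v235 := add v233 v234; ok v235 && (
  let v236 := scale ⟨2199023255552, 0, 0, 0⟩ v2; ok v236 && (
  let v237 := exp v236; ok v237 && (
  isPos 3 v235 && (
  let v238 := mul v217 v237; ok v238 && (
  let v239 := scale ⟨2199023255552, 0, 0, 0⟩ v238; ok v239 && (
  let v240 := inv v219; ok v240 && (
  let v241 := mul v216 v240; ok v241 && (
  let v242 := inv v235; ok v242 && (
  let v243 := mul v237 v242; ok v243 && (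
  let v244 := mul v241 v243; ok v244 && (
  let v245 := mul v239 v244; ok v245 && (
  isLt v245 1099510579200 && (
  let v246 := cst ⟨11839077351424, 0, 0, 0⟩; ok v246 && (
  let v247 := add v27 v246; ok v247 && (
  isPos 3 v247 && (
  let v248 := mul v213 v213; ok v248 && (
  let v249 := sub v248 v27; ok v249 && (
  let v250 := inv v247; ok v250 && (
  let v251 := mul v249 v250; ok v251 && (
  isLt v251 1099510579200 && (
  let v252 := scale ⟨0, 1703936, 0, 0⟩ v88; ok v252 && (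
  let v253 := cst ⟨66387968, 0, 0, 0⟩; ok v253 && (
  let v254 := add v252 v253; ok v254 && (
  let v255 := mul v88 v254; ok v255 && (
  let v256 := scale ⟨23855104, 0, 0, 0⟩ v36; ok v256 && (
  let v257 := scale ⟨582031704064, 0, 0, 0⟩ v34; ok v257 && (
  let v258 := add v256 v257; ok v258 && (
  let v259 := cst ⟨3878813696, 0, 0, 0⟩; ok v259 && (
  let v260 := add v258 v259; ok v260 && (
  let v261 := add v255 v260; ok v261 && (
  let v262 := mul v88 v261; ok v262 && (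
  let v263 := scale ⟨3129016320, 0, 0, 0⟩ v36; ok v263 && (
  let v264 := scale ⟨173998080, 0, 0, 0⟩ v37; ok v264 && (
  let v265 := add v263 v264; ok v265 && (
  let v266 := scale ⟨2232935383040, 0, 0, 0⟩ v34; ok v266 && (
  let v267 := add v265 v266; ok v267 && (
  let v268 := cst ⟨1111585062912, 0, 0, 0⟩; ok v268 && (
  let v269 := add v267 v268; ok v269 && (
  let v270 := add v262 v269; ok v270 && (
  let v271 := scale ⟨1099511627776, 0, 0, 0⟩ v141; ok v271 && (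
  isPos 3 v271 && (
  let v272 := inv v271; ok v272 && (
  let v273 := mul v143 v214; ok v273 && (
  let v274 := mul v273 v272; ok v274 && (
  let v275 := scale ⟨549755813888, 0, 0, 0⟩ v274; ok v275 && (
  let v276 := mul x0 v213; ok v276 && (
  let v277 := add v276 v10; ok v277 && (
  isPos 3 v277 && (
  let v278 := inv v277; ok v278 && (
  let v279 := mul v7 v278; ok v279 && (
  let v280 := sub v213 v24; ok v280 && (
  let v281 := add v7 v278; ok v281 && (
  let v282 := mul v280 v281; ok v282 && (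
  let v283 := mul v279 v282; ok v283 && (
  let v284 := mul v7 v24; ok v284 && (
  let v285 := scale ⟨2199023255552, 0, 0, 0⟩ v284; ok v285 && (
  let v286 := add v283 v285; ok v286 && (
  let v287 := scale ⟨0, 170458662043648, 0, 0⟩ v34; ok v287 && (
  let v288 := cst ⟨0, 2840315559936, 0, 0⟩; ok v288 && (
  let v289 := add v287 v288; ok v289 && (
  let v290 := sub v286 v289; ok v290 && (
  isPos 3 v290 && (
  let v291 := inv v290; ok v291 && (
  let v292 := scale ⟨39174379995136, 0, 0, 0⟩ v291; ok v292 && (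
  let v293 := add v290 v292; ok v293 && (
  isPos 3 v293 && (
  let v294 := inv v293; ok v294 && (
  let v295 := scale ⟨9649029248, 0, 0, 0⟩ v36; ok v295 && (
  let v296 := scale ⟨0, 20326425519744, 0, 0⟩ v34; ok v296 && (
  let v297 := add v295 v296; ok v297 && (
  let v298 := cst ⟨0, 172575225472, 0, 0⟩; ok v298 && (
  let v299 := add v297 v298; ok v299 && (
  let v300 := scale ⟨0, 64997899520, 0, 0⟩ v36; ok v300 && (
  let v301 := scale ⟨4727830303744, 0, 0, 0⟩ v34; ok v301 && (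
  let v302 := add v300 v301; ok v302 && (
  let v303 := cst ⟨67823178624, 0, 0, 0⟩; ok v303 && (
  let v304 := add v302 v303; ok v304 && (
  let v305 := mul v291 v304; ok v305 && (
  let v306 := add v299 v305; ok v306 && (
  let v307 := mul v306 v294; ok v307 && (
  let v308 := scale ⟨64, 0, 0, 0⟩ v286; ok v308 && (
  let v309 := cst ⟨0, 8256, 0, 0⟩; ok v309 && (
  let v310 := add v308 v309; ok v310 && (
  let v311 := mul v286 v310; ok v311 && (
  let v312 := add v311 v77; ok v312 && (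
  let v313 := mul v286 v312; ok v313 && (
  let v314 := add v313 v74; ok v314 && (
  let v315 := mul v286 v314; ok v315 && (
  let v316 := add v315 v69; ok v316 && (
  let v317 := mul v286 v316; ok v317 && (
  let v318 := add v317 v62; ok v318 && (
  let v319 := mul v286 v318; ok v319 && (
  let v320 := add v307 v53; ok v320 && (
  let v321 := add v319 v320; ok v321 && (
  let v322 := mul v283 v321; ok v322 && (
  let v323 := add v322 v11; ok v323 && (
  let v324 := neg v323; ok v324 && (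
  let v325 := exp v324; ok v325 && (
  let v326 := add v325 v0; ok v326 && (
  isPos 3 v326 && (
  let v327 := log v326; ok v327 && (
  let v328 := scale ⟨769604452352, 0, 0, 0⟩ v213; ok v328 && (
  let v329 := add v328 v0; ok v329 && (
  isPos 3 v329 && (
  let v330 := inv v329; ok v330 && (
  let v331 := scale ⟨14942208, 0, 0, 0⟩ v36; ok v331 && (
  let v332 := scale ⟨8503689216, 0, 0, 0⟩ v34; ok v332 && (
  let v333 := add v331 v332; ok v333 && (
  let v334 := scale ⟨1794310144, 0, 0, 0⟩ v39; ok v334 && (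
  let v335 := add v333 v334; ok v335 && (
  let v336 := cst ⟨35804938240, 0, 0, 0⟩; ok v336 && (
  let v337 := add v335 v336; ok v337 && (
  let v338 := scale ⟨2886218022912, 0, 0, 0⟩ v2; ok v338 && (
  let v339 := neg v338; ok v339 && (
  let v340 := exp v339; ok v340 && (
  let v341 := mul v337 v340; ok v341 && (
  let v342 := scale ⟨1099511627776, 0, 0, 0⟩ v341; ok v342 && (
  let v343 := mul v342 v272; ok v343 && (
  let v344 := mul v6 v80; ok v344 && (
  let v345 := mul v344 v219; ok v345 && (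
  let v346 := mul v343 v345; ok v346 && (
  let v347 := mul v143 v330; ok v347 && (
  let v348 := mul v346 v347; ok v348 && (
  let v349 := add v124 v129; ok v349 && (
  let v350 := sub v349 v327; ok v350 && (
  let v351 := sub v350 v224; ok v351 && (
  let v352 := exp v351; ok v352 && (
  let v353 := cst ⟨0, 0, 0, 0⟩; ok v353 && (
  let v354 := mul v270 v352; ok v354 && (
  let v355 := mul v354 v325; ok v355 && (
  let v356 := mul v355 v348; ok v356 && (
  let v357 := rball v353 v356; ok v357 && (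
  let v358 := sub v0 v270; ok v358 && (
  let v359 := mul x3 v358; ok v359 && (
  let v360 := sub v0 v352; ok v360 && (
  let v361 := scale ⟨1099511627776, 0, 0, 0⟩ v360; ok v361 && (
  let v362 := mul v361 v275; ok v362 && (
  let v363 := mul v270 v362; ok v363 && (
  let v364 := add v359 v363; ok v364 && (
  let v365 := add v364 v357; ok v365 && (
  isLt v365 1099510579200 && (
  true))))))))))))))))))))))))))))))))))))))))))))))))))))))))))))))))))))))))))))))))))))))))))))))))))))))))))))))))))))))))))))))))))))))))))))))))))))))))))))))))))))))))))))))))))))))))))))))))))))))))))))))))))))))))))))))))))))))))))))))))))))))))))))))))))))))))))))))))))))))))))))))))))))))))))))))))))))))))))))))))))))))))))))))))))))))))))))))))))))))))))))))))))))))))))))))))))))))))))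
  | _ => false

set_option maxRecDepth 1000000 in
theorem c2_1_eq (X : XOps) (m : List X.O.α)
    (h : c2_1 X.O.cst X.O.add X.O.sub X.O.mul X.O.scale X.O.neg X.O.inv X.O.exp X.O.log X.O.ok
      X.O.isPos X.O.isLt X.ball X.rball m = true) :
    runX X 3 p2_1 m = true := by
  match m, h with
  | [x0, x1, x2, x3], h => exact h

def p1_A1 : List Op := [
  .const ⟨1099511627776, 0, 0, 0⟩,
  .mul 1 2,
  .exp 0,
  .neg 1,
  .exp 0,
  .mul 3 3,
  .lt 0 68719476736,
  .scale ⟨9162596898, 0, 0, 0⟩ 0,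
  .const ⟨183251937962, 0, 0, 0⟩,
  .add 1 0,
  .mul 0 3,
  .const ⟨1099511627776, 0, 0, 0⟩,
  .add 1 0,
  .const ⟨65536, 0, 0, 0⟩,
  .rball 1 0,
  .scale ⟨2199023255552, 0, 0, 0⟩ 15,
  .mul 0 1,
  .add 13 11,
  .scale ⟨549755813888, 0, 0, 0⟩ 0,
  .mul 2 0,
  .mul 0 0,
  .const ⟨9160359936, 0, 0, 0⟩,
  .sub 21 0,
  .const ⟨5222680231936, 0, 0, 0⟩,
  .sub 24 0,
  .mul 0 0,
  .mul 0 1,
  .mul 4 2,
  .mul 22 22,
  .mul 0 0,
  .scale ⟨4398046511104, 0, 0, 0⟩ 27,
  .neg 0,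
  .exp 0,
  .scale ⟨0, 27720941568, 0, 0⟩ 8,
  .scale ⟨30163075072, 0, 0, 0⟩ 8,
  .add 1 0,
  .scale ⟨0, 6188695552, 0, 0⟩ 9,
  .add 1 0,
  .scale ⟨24315135655936, 0, 0, 0⟩ 15,
  .add 1 0,
  .scale ⟨17925302976512, 0, 0, 0⟩ 12,
  .add 1 0,
  .const ⟨623154429952, 0, 0, 0⟩,
  .add 1 0,
  .mul 43 24,
  .mul 0 1,
  .add 0 44,
  .mul 14 0,
  .scale ⟨2199023255552, 0, 0, 0⟩ 19,
  .mul 5 16,
  .sub 1 0,
  .mul 50 0,
  .add 4 50,
  .mul 1 32,
  .mul 1 55,
  .scale ⟨0, 0, 1099511627776, 0⟩ 0,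
  .add 2 0,
  .mul 5 58,
  .scale ⟨0, 0, 1099511627776, 0⟩ 0,
  .add 6 0,
  .inv 0,
  .mul 4 0]

set_option maxRecDepth 1000000 in
noncomputable def c_A1_0 {α : Type} (cst : Z → α) (add sub mul : α → α → α) (scale : Z → α → α)
    (neg inv exp log : α → α) (ok : α → Bool) (isPos : Nat → α → Bool) (isLt : α → Nat → Bool)
    (ball : Nat → α → α) (rball : α → α → α) : List α → Bool
  | [x0, x1, x2, x3] =>
  let v0 := cst ⟨1099511627776, 0, 0, 0⟩; ok v0 && (
  let v1 := mul x0 x1; ok v1 && (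
  let v2 := exp v1; ok v2 && (
  let v3 := neg v1; ok v3 && (
  let v4 := exp v3; ok v4 && (
  let v5 := mul v1 v1; ok v5 && (
  isLt v5 68719476736 && (
  let v6 := scale ⟨9162596898, 0, 0, 0⟩ v5; ok v6 && (
  let v7 := cst ⟨183251937962, 0, 0, 0⟩; ok v7 && (
  let v8 := add v6 v7; ok v8 && (
  let v9 := mul v8 v5; ok v9 && (
  let v10 := cst ⟨1099511627776, 0, 0, 0⟩; ok v10 && (
  let v11 := add v9 v10; ok v11 && (
  let v12 := cst ⟨65536, 0, 0, 0⟩; ok v12 && (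
  let v13 := rball v11 v12; ok v13 && (
  let v14 := scale ⟨2199023255552, 0, 0, 0⟩ x1; ok v14 && (
  let v15 := mul v14 v13; ok v15 && (
  let v16 := add v2 v4; ok v16 && (
  let v17 := scale ⟨549755813888, 0, 0, 0⟩ v16; ok v17 && (
  let v18 := mul v15 v17; ok v18 && (
  let v19 := mul v18 v18; ok v19 && (
  let v20 := cst ⟨9160359936, 0, 0, 0⟩; ok v20 && (
  let v21 := sub x0 v20; ok v21 && (
  let v22 := cst ⟨5222680231936, 0, 0, 0⟩; ok v22 && (
  let v23 := sub x1 v22; ok v23 && (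
  let v24 := mul v23 v23; ok v24 && (
  let v25 := mul v24 v23; ok v25 && (
  let v26 := mul v21 v23; ok v26 && (
  let v27 := mul v4 v4; ok v27 && (
  let v28 := mul v27 v27; ok v28 && (
  let v29 := scale ⟨4398046511104, 0, 0, 0⟩ v1; ok v29 && (
  let v30 := neg v29; ok v30 && (
  let v31 := exp v30; ok v31 && (
  let v32 := scale ⟨0, 27720941568, 0, 0⟩ v23; ok v32 && (
  let v33 := scale ⟨30163075072, 0, 0, 0⟩ v24; ok v33 && (
  let v34 := add v32 v33; ok v34 && (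
  let v35 := scale ⟨0, 6188695552, 0, 0⟩ v25; ok v35 && (
  let v36 := add v34 v35; ok v36 && (
  let v37 := scale ⟨24315135655936, 0, 0, 0⟩ v21; ok v37 && (
  let v38 := add v36 v37; ok v38 && (
  let v39 := scale ⟨17925302976512, 0, 0, 0⟩ v26; ok v39 && (
  let v40 := add v38 v39; ok v40 && (
  let v41 := cst ⟨623154429952, 0, 0, 0⟩; ok v41 && (
  let v42 := add v40 v41; ok v42 && (
  let v43 := mul x0 v18; ok v43 && (
  let v44 := mul v43 v42; ok v44 && (
  let v45 := add v44 v0; ok v45 && (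
  let v46 := mul v31 v45; ok v46 && (
  let v47 := scale ⟨2199023255552, 0, 0, 0⟩ v27; ok v47 && (
  let v48 := mul v42 v31; ok v48 && (
  let v49 := sub v47 v48; ok v49 && (
  let v50 := mul x0 v49; ok v50 && (
  let v51 := add v46 v0; ok v51 && (
  let v52 := mul v50 v19; ok v52 && (
  let v53 := mul v51 x2; ok v53 && (
  let v54 := scale ⟨0, 0, 1099511627776, 0⟩ v53; ok v54 && (
  let v55 := add v52 v54; ok v55 && (
  let v56 := mul v50 x2; ok v56 && (
  let v57 := scale ⟨0, 0, 1099511627776, 0⟩ v56; ok v57 && (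
  let v58 := add v51 v57; ok v58 && (
  let v59 := inv v58; ok v59 && (
  let v60 := mul v55 v59; ok v60 && (
  c2_1 cst add sub mul scale neg inv exp log ok isPos isLt ball rball [x0, x1, v60, x3]))))))))))))))))))))))))))))))))))))))))))))))))))))))))))))))
  | _ => false

set_option maxRecDepth 1000000 in
theorem c_A1_0_eq (X : XOps) (m : List X.O.α)
    (h : c_A1_0 X.O.cst X.O.add X.O.sub X.O.mul X.O.scale X.O.neg X.O.inv X.O.exp X.O.log X.O.ok
      X.O.isPos X.O.isLt X.ball X.rball m = true) :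
    runX X 3 (p1_A1 ++ reloc [61, 62, 0, 64] 65 0 p2_1) m = true := by
  match m, h with
  | [x0, x1, x2, x3], h => exact share (c2_1_eq X) [x0, x1, x2, x3] (Nat.le_of_ble_eq_true rfl) h

def p_A1_1 : List Op := [
  .const ⟨1099511627776, 0, 0, 0⟩,
  .mul 1 2,
  .exp 0,
  .neg 1,
  .exp 0,
  .mul 3 3,
  .lt 0 68719476736,
  .scale ⟨9162596898, 0, 0, 0⟩ 0,
  .const ⟨183251937962, 0, 0, 0⟩,
  .add 1 0,
  .mul 0 3,
  .const ⟨1099511627776, 0, 0, 0⟩,
  .add 1 0,
  .const ⟨65536, 0, 0, 0⟩,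
  .rball 1 0,
  .scale ⟨2199023255552, 0, 0, 0⟩ 15,
  .mul 0 1,
  .add 13 11,
  .scale ⟨549755813888, 0, 0, 0⟩ 0,
  .mul 2 0,
  .mul 0 0,
  .const ⟨9160359936, 0, 0, 0⟩,
  .sub 21 0,
  .const ⟨5222680231936, 0, 0, 0⟩,
  .sub 24 0,
  .mul 0 0,
  .mul 0 1,
  .mul 4 2,
  .mul 22 22,
  .mul 0 0,
  .scale ⟨4398046511104, 0, 0, 0⟩ 27,
  .neg 0,
  .exp 0,
  .scale ⟨0, 27720941568, 0, 0⟩ 8,
  .scale ⟨30163075072, 0, 0, 0⟩ 8,
  .add 1 0,
  .scale ⟨0, 6188695552, 0, 0⟩ 9,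
  .add 1 0,
  .scale ⟨24315135655936, 0, 0, 0⟩ 15,
  .add 1 0,
  .scale ⟨17925302976512, 0, 0, 0⟩ 12,
  .add 1 0,
  .const ⟨623154429952, 0, 0, 0⟩,
  .add 1 0,
  .mul 43 24,
  .mul 0 1,
  .add 0 44,
  .mul 14 0,
  .scale ⟨2199023255552, 0, 0, 0⟩ 19,
  .mul 5 16,
  .sub 1 0,
  .mul 50 0,
  .add 4 50,
  .mul 1 32,
  .mul 1 55,
  .scale ⟨0, 0, 1099511627776, 0⟩ 0,
  .add 2 0,
  .mul 5 58,
  .scale ⟨0, 0, 1099511627776, 0⟩ 0,
  .add 6 0,
  .inv 0,
  .mul 4 0,
  .const ⟨8601745752064, 0, 0, 0⟩,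
  .add 42 0,
  .mul 63 0,
  .mul 64 3,
  .mul 0 4,
  .mul 66 46,
  .sub 1 0,
  .inv 0,
  .mul 5 0,
  .lt 0 1099511627520]

set_option maxRecDepth 1000000 in
noncomputable def c_A1_1 {α : Type} (cst : Z → α) (add sub mul : α → α → α) (scale : Z → α → α)
    (neg inv exp log : α → α) (ok : α → Bool) (isPos : Nat → α → Bool) (isLt : α → Nat → Bool)
    (ball : Nat → α → α) (rball : α → α → α) : List α → Bool
  | [x0, x1, x2, x3] =>
  let v0 := cst ⟨1099511627776, 0, 0, 0⟩; ok v0 && (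
  let v1 := mul x0 x1; ok v1 && (
  let v2 := exp v1; ok v2 && (
  let v3 := neg v1; ok v3 && (
  let v4 := exp v3; ok v4 && (
  let v5 := mul v1 v1; ok v5 && (
  isLt v5 68719476736 && (
  let v6 := scale ⟨9162596898, 0, 0, 0⟩ v5; ok v6 && (
  let v7 := cst ⟨183251937962, 0, 0, 0⟩; ok v7 && (
  let v8 := add v6 v7; ok v8 && (
  let v9 := mul v8 v5; ok v9 && (
  let v10 := cst ⟨1099511627776, 0, 0, 0⟩; ok v10 && (
  let v11 := add v9 v10; ok v11 && (
  let v12 := cst ⟨65536, 0, 0, 0⟩; ok v12 && (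
  let v13 := rball v11 v12; ok v13 && (
  let v14 := scale ⟨2199023255552, 0, 0, 0⟩ x1; ok v14 && (
  let v15 := mul v14 v13; ok v15 && (
  let v16 := add v2 v4; ok v16 && (
  let v17 := scale ⟨549755813888, 0, 0, 0⟩ v16; ok v17 && (
  let v18 := mul v15 v17; ok v18 && (
  let v19 := mul v18 v18; ok v19 && (
  let v20 := cst ⟨9160359936, 0, 0, 0⟩; ok v20 && (
  let v21 := sub x0 v20; ok v21 && (
  let v22 := cst ⟨5222680231936, 0, 0, 0⟩; ok v22 && (
  let v23 := sub x1 v22; ok v23 && (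
  let v24 := mul v23 v23; ok v24 && (
  let v25 := mul v24 v23; ok v25 && (
  let v26 := mul v21 v23; ok v26 && (
  let v27 := mul v4 v4; ok v27 && (
  let v28 := mul v27 v27; ok v28 && (
  let v29 := scale ⟨4398046511104, 0, 0, 0⟩ v1; ok v29 && (
  let v30 := neg v29; ok v30 && (
  let v31 := exp v30; ok v31 && (
  let v32 := scale ⟨0, 27720941568, 0, 0⟩ v23; ok v32 && (
  let v33 := scale ⟨30163075072, 0, 0, 0⟩ v24; ok v33 && (
  let v34 := add v32 v33; ok v34 && (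
  let v35 := scale ⟨0, 6188695552, 0, 0⟩ v25; ok v35 && (
  let v36 := add v34 v35; ok v36 && (
  let v37 := scale ⟨24315135655936, 0, 0, 0⟩ v21; ok v37 && (
  let v38 := add v36 v37; ok v38 && (
  let v39 := scale ⟨17925302976512, 0, 0, 0⟩ v26; ok v39 && (
  let v40 := add v38 v39; ok v40 && (
  let v41 := cst ⟨623154429952, 0, 0, 0⟩; ok v41 && (
  let v42 := add v40 v41; ok v42 && (
  let v43 := mul x0 v18; ok v43 && (
  let v44 := mul v43 v42; ok v44 && (
  let v45 := add v44 v0; ok v45 && (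
  let v46 := mul v31 v45; ok v46 && (
  let v47 := scale ⟨2199023255552, 0, 0, 0⟩ v27; ok v47 && (
  let v48 := mul v42 v31; ok v48 && (
  let v49 := sub v47 v48; ok v49 && (
  let v50 := mul x0 v49; ok v50 && (
  let v51 := add v46 v0; ok v51 && (
  let v52 := mul v50 v19; ok v52 && (
  let v53 := mul v51 x2; ok v53 && (
  let v54 := scale ⟨0, 0, 1099511627776, 0⟩ v53; ok v54 && (
  let v55 := add v52 v54; ok v55 && (
  let v56 := mul v50 x2; ok v56 && (
  let v57 := scale ⟨0, 0, 1099511627776, 0⟩ v56; ok v57 && (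
  let v58 := add v51 v57; ok v58 && (
  let v59 := inv v58; ok v59 && (
  let v60 := mul v55 v59; ok v60 && (
  let v61 := cst ⟨8601745752064, 0, 0, 0⟩; ok v61 && (
  let v62 := add v19 v61; ok v62 && (
  let v63 := mul x0 v62; ok v63 && (
  let v64 := mul x0 v60; ok v64 && (
  let v65 := mul v64 v60; ok v65 && (
  let v66 := mul x0 v19; ok v66 && (
  let v67 := sub v65 v66; ok v67 && (
  let v68 := inv v67; ok v68 && (
  let v69 := mul v63 v68; ok v69 && (
  isLt v69 1099511627520 && (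
  true))))))))))))))))))))))))))))))))))))))))))))))))))))))))))))))))))))))))
  | _ => false

set_option maxRecDepth 1000000 in
theorem c_A1_1_eq (X : XOps) (m : List X.O.α)
    (h : c_A1_1 X.O.cst X.O.add X.O.sub X.O.mul X.O.scale X.O.neg X.O.inv X.O.exp X.O.log X.O.ok
      X.O.isPos X.O.isLt X.ball X.rball m = true) :
    runX X 3 p_A1_1 m = true := by
  match m, h with
  | [x0, x1, x2, x3], h => exact h

abbrev gA1 : List (List Op) := [(p1_A1 ++ reloc [61, 62, 0, 64] 65 0 p2_1), p_A1_1]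

noncomputable abbrev kA1 : List (List xE.O.α → Bool) := [c_A1_0 xE.O.cst xE.O.add xE.O.sub xE.O.mul xE.O.scale xE.O.neg xE.O.inv xE.O.exp xE.O.log xE.O.ok
      xE.O.isPos xE.O.isLt xE.ball xE.rball, c_A1_1 xE.O.cst xE.O.add xE.O.sub xE.O.mul xE.O.scale xE.O.neg xE.O.inv xE.O.exp xE.O.log xE.O.ok
      xE.O.isPos xE.O.isLt xE.ball xE.rball]

theorem kA1_eq : List.Forall₂ (fun (ops : List Op) (chk : List xE.O.α → Bool) =>
    ∀ m, chk m = true → runX xE 3 ops m = true) gA1 kA1 :=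
  List.Forall₂.cons (c_A1_0_eq xE) (List.Forall₂.cons (c_A1_1_eq xE) List.Forall₂.nil)

theorem gA1_eq : gA1 = [circ (cA tab 1) (PSm tab 1), altP (cA tab 1) (oCut tab 1)] := by decide +kernel

def p1_B1 : List Op := [
  .const ⟨1099511627776, 0, 0, 0⟩,
  .mul 1 2,
  .exp 0,
  .neg 1,
  .exp 0,
  .mul 3 3,
  .lt 0 68719476736,
  .scale ⟨9162596898, 0, 0, 0⟩ 0,
  .const ⟨183251937962, 0, 0, 0⟩,
  .add 1 0,
  .mul 0 3,
  .const ⟨1099511627776, 0, 0, 0⟩,
  .add 1 0,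
  .const ⟨65536, 0, 0, 0⟩,
  .rball 1 0,
  .scale ⟨2199023255552, 0, 0, 0⟩ 15,
  .mul 0 1,
  .add 13 11,
  .scale ⟨549755813888, 0, 0, 0⟩ 0,
  .mul 2 0,
  .mul 0 0,
  .const ⟨9160359936, 0, 0, 0⟩,
  .sub 21 0,
  .const ⟨5222680231936, 0, 0, 0⟩,
  .sub 24 0,
  .mul 0 0,
  .mul 0 1,
  .mul 4 2,
  .mul 22 22,
  .mul 0 0,
  .scale ⟨4398046511104, 0, 0, 0⟩ 27,
  .neg 0,
  .exp 0,
  .scale ⟨0, 27720941568, 0, 0⟩ 8,
  .scale ⟨30163075072, 0, 0, 0⟩ 8,
  .add 1 0,
  .scale ⟨0, 6188695552, 0, 0⟩ 9,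
  .add 1 0,
  .scale ⟨24315135655936, 0, 0, 0⟩ 15,
  .add 1 0,
  .scale ⟨17925302976512, 0, 0, 0⟩ 12,
  .add 1 0,
  .const ⟨623154429952, 0, 0, 0⟩,
  .add 1 0,
  .mul 43 24,
  .mul 0 1,
  .add 0 44,
  .mul 14 0,
  .scale ⟨2199023255552, 0, 0, 0⟩ 19,
  .mul 5 16,
  .sub 1 0,
  .mul 50 0,
  .add 4 50,
  .mul 1 32,
  .mul 0 55,
  .scale ⟨0, 0, 1099511627776, 0⟩ 2,
  .add 1 0,
  .mul 4 58,
  .scale ⟨0, 0, 1099511627776, 0⟩ 6,
  .add 1 0,
  .inv 0,
  .mul 4 0]

set_option maxRecDepth 1000000 in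
noncomputable def c_B1_0 {α : Type} (cst : Z → α) (add sub mul : α → α → α) (scale : Z → α → α)
    (neg inv exp log : α → α) (ok : α → Bool) (isPos : Nat → α → Bool) (isLt : α → Nat → Bool)
    (ball : Nat → α → α) (rball : α → α → α) : List α → Bool
  | [x0, x1, x2, x3] =>
  let v0 := cst ⟨1099511627776, 0, 0, 0⟩; ok v0 && (
  let v1 := mul x0 x1; ok v1 && (
  let v2 := exp v1; ok v2 && (
  let v3 := neg v1; ok v3 && (
  let v4 := exp v3; ok v4 && (
  let v5 := mul v1 v1; ok v5 && (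
  isLt v5 68719476736 && (
  let v6 := scale ⟨9162596898, 0, 0, 0⟩ v5; ok v6 && (
  let v7 := cst ⟨183251937962, 0, 0, 0⟩; ok v7 && (
  let v8 := add v6 v7; ok v8 && (
  let v9 := mul v8 v5; ok v9 && (
  let v10 := cst ⟨1099511627776, 0, 0, 0⟩; ok v10 && (
  let v11 := add v9 v10; ok v11 && (
  let v12 := cst ⟨65536, 0, 0, 0⟩; ok v12 && (
  let v13 := rball v11 v12; ok v13 && (
  let v14 := scale ⟨2199023255552, 0, 0, 0⟩ x1; ok v14 && (
  let v15 := mul v14 v13; ok v15 && (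
  let v16 := add v2 v4; ok v16 && (
  let v17 := scale ⟨549755813888, 0, 0, 0⟩ v16; ok v17 && (
  let v18 := mul v15 v17; ok v18 && (
  let v19 := mul v18 v18; ok v19 && (
  let v20 := cst ⟨9160359936, 0, 0, 0⟩; ok v20 && (
  let v21 := sub x0 v20; ok v21 && (
  let v22 := cst ⟨5222680231936, 0, 0, 0⟩; ok v22 && (
  let v23 := sub x1 v22; ok v23 && (
  let v24 := mul v23 v23; ok v24 && (
  let v25 := mul v24 v23; ok v25 && (
  let v26 := mul v21 v23; ok v26 && (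
  let v27 := mul v4 v4; ok v27 && (
  let v28 := mul v27 v27; ok v28 && (
  let v29 := scale ⟨4398046511104, 0, 0, 0⟩ v1; ok v29 && (
  let v30 := neg v29; ok v30 && (
  let v31 := exp v30; ok v31 && (
  let v32 := scale ⟨0, 27720941568, 0, 0⟩ v23; ok v32 && (
  let v33 := scale ⟨30163075072, 0, 0, 0⟩ v24; ok v33 && (
  let v34 := add v32 v33; ok v34 && (
  let v35 := scale ⟨0, 6188695552, 0, 0⟩ v25; ok v35 && (
  let v36 := add v34 v35; ok v36 && (
  let v37 := scale ⟨24315135655936, 0, 0, 0⟩ v21; ok v37 && (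
  let v38 := add v36 v37; ok v38 && (
  let v39 := scale ⟨17925302976512, 0, 0, 0⟩ v26; ok v39 && (
  let v40 := add v38 v39; ok v40 && (
  let v41 := cst ⟨623154429952, 0, 0, 0⟩; ok v41 && (
  let v42 := add v40 v41; ok v42 && (
  let v43 := mul x0 v18; ok v43 && (
  let v44 := mul v43 v42; ok v44 && (
  let v45 := add v44 v0; ok v45 && (
  let v46 := mul v31 v45; ok v46 && (
  let v47 := scale ⟨2199023255552, 0, 0, 0⟩ v27; ok v47 && (
  let v48 := mul v42 v31; ok v48 && (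
  let v49 := sub v47 v48; ok v49 && (
  let v50 := mul x0 v49; ok v50 && (
  let v51 := add v46 v0; ok v51 && (
  let v52 := mul v50 v19; ok v52 && (
  let v53 := mul v52 x2; ok v53 && (
  let v54 := scale ⟨0, 0, 1099511627776, 0⟩ v51; ok v54 && (
  let v55 := add v53 v54; ok v55 && (
  let v56 := mul v51 x2; ok v56 && (
  let v57 := scale ⟨0, 0, 1099511627776, 0⟩ v50; ok v57 && (
  let v58 := add v56 v57; ok v58 && (
  let v59 := inv v58; ok v59 && (
  let v60 := mul v55 v59; ok v60 && (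
  c2_1 cst add sub mul scale neg inv exp log ok isPos isLt ball rball [x0, x1, v60, x3]))))))))))))))))))))))))))))))))))))))))))))))))))))))))))))))
  | _ => false

set_option maxRecDepth 1000000 in
theorem c_B1_0_eq (X : XOps) (m : List X.O.α)
    (h : c_B1_0 X.O.cst X.O.add X.O.sub X.O.mul X.O.scale X.O.neg X.O.inv X.O.exp X.O.log X.O.ok
      X.O.isPos X.O.isLt X.ball X.rball m = true) :
    runX X 3 (p1_B1 ++ reloc [61, 62, 0, 64] 65 0 p2_1) m = true := by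
  match m, h with
  | [x0, x1, x2, x3], h => exact share (c2_1_eq X) [x0, x1, x2, x3] (Nat.le_of_ble_eq_true rfl) h

def p_B1_1 : List Op := [
  .const ⟨1099511627776, 0, 0, 0⟩,
  .mul 1 2,
  .exp 0,
  .neg 1,
  .exp 0,
  .mul 3 3,
  .lt 0 68719476736,
  .scale ⟨9162596898, 0, 0, 0⟩ 0,
  .const ⟨183251937962, 0, 0, 0⟩,
  .add 1 0,
  .mul 0 3,
  .const ⟨1099511627776, 0, 0, 0⟩,
  .add 1 0,
  .const ⟨65536, 0, 0, 0⟩,
  .rball 1 0,
  .scale ⟨2199023255552, 0, 0, 0⟩ 15,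
  .mul 0 1,
  .add 13 11,
  .scale ⟨549755813888, 0, 0, 0⟩ 0,
  .mul 2 0,
  .mul 0 0,
  .const ⟨9160359936, 0, 0, 0⟩,
  .sub 21 0,
  .const ⟨5222680231936, 0, 0, 0⟩,
  .sub 24 0,
  .mul 0 0,
  .mul 0 1,
  .mul 4 2,
  .mul 22 22,
  .mul 0 0,
  .scale ⟨4398046511104, 0, 0, 0⟩ 27,
  .neg 0,
  .exp 0,
  .scale ⟨0, 27720941568, 0, 0⟩ 8,
  .scale ⟨30163075072, 0, 0, 0⟩ 8,
  .add 1 0,
  .scale ⟨0, 6188695552, 0, 0⟩ 9,
  .add 1 0,
  .scale ⟨24315135655936, 0, 0, 0⟩ 15,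
  .add 1 0,
  .scale ⟨17925302976512, 0, 0, 0⟩ 12,
  .add 1 0,
  .const ⟨623154429952, 0, 0, 0⟩,
  .add 1 0,
  .mul 43 24,
  .mul 0 1,
  .add 0 44,
  .mul 14 0,
  .scale ⟨2199023255552, 0, 0, 0⟩ 19,
  .mul 5 16,
  .sub 1 0,
  .mul 50 0,
  .add 4 50,
  .mul 1 32,
  .mul 0 55,
  .scale ⟨0, 0, 1099511627776, 0⟩ 2,
  .add 1 0,
  .mul 4 58,
  .scale ⟨0, 0, 1099511627776, 0⟩ 6,
  .add 1 0,
  .inv 0,
  .mul 4 0,
  .const ⟨8601745752064, 0, 0, 0⟩,
  .add 42 0,
  .mul 63 0,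
  .mul 64 3,
  .mul 0 4,
  .mul 66 46,
  .sub 1 0,
  .inv 0,
  .mul 5 0,
  .lt 0 1099511627520]

set_option maxRecDepth 1000000 in
noncomputable def c_B1_1 {α : Type} (cst : Z → α) (add sub mul : α → α → α) (scale : Z → α → α)
    (neg inv exp log : α → α) (ok : α → Bool) (isPos : Nat → α → Bool) (isLt : α → Nat → Bool)
    (ball : Nat → α → α) (rball : α → α → α) : List α → Bool
  | [x0, x1, x2, x3] =>
  let v0 := cst ⟨1099511627776, 0, 0, 0⟩; ok v0 && (
  let v1 := mul x0 x1; ok v1 && (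
  let v2 := exp v1; ok v2 && (
  let v3 := neg v1; ok v3 && (
  let v4 := exp v3; ok v4 && (
  let v5 := mul v1 v1; ok v5 && (
  isLt v5 68719476736 && (
  let v6 := scale ⟨9162596898, 0, 0, 0⟩ v5; ok v6 && (
  let v7 := cst ⟨183251937962, 0, 0, 0⟩; ok v7 && (
  let v8 := add v6 v7; ok v8 && (
  let v9 := mul v8 v5; ok v9 && (
  let v10 := cst ⟨1099511627776, 0, 0, 0⟩; ok v10 && (
  let v11 := add v9 v10; ok v11 && (
  let v12 := cst ⟨65536, 0, 0, 0⟩; ok v12 && (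
  let v13 := rball v11 v12; ok v13 && (
  let v14 := scale ⟨2199023255552, 0, 0, 0⟩ x1; ok v14 && (
  let v15 := mul v14 v13; ok v15 && (
  let v16 := add v2 v4; ok v16 && (
  let v17 := scale ⟨549755813888, 0, 0, 0⟩ v16; ok v17 && (
  let v18 := mul v15 v17; ok v18 && (
  let v19 := mul v18 v18; ok v19 && (
  let v20 := cst ⟨9160359936, 0, 0, 0⟩; ok v20 && (
  let v21 := sub x0 v20; ok v21 && (
  let v22 := cst ⟨5222680231936, 0, 0, 0⟩; ok v22 && (
  let v23 := sub x1 v22; ok v23 && (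
  let v24 := mul v23 v23; ok v24 && (
  let v25 := mul v24 v23; ok v25 && (
  let v26 := mul v21 v23; ok v26 && (
  let v27 := mul v4 v4; ok v27 && (
  let v28 := mul v27 v27; ok v28 && (
  let v29 := scale ⟨4398046511104, 0, 0, 0⟩ v1; ok v29 && (
  let v30 := neg v29; ok v30 && (
  let v31 := exp v30; ok v31 && (
  let v32 := scale ⟨0, 27720941568, 0, 0⟩ v23; ok v32 && (
  let v33 := scale ⟨30163075072, 0, 0, 0⟩ v24; ok v33 && (
  let v34 := add v32 v33; ok v34 && (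
  let v35 := scale ⟨0, 6188695552, 0, 0⟩ v25; ok v35 && (
  let v36 := add v34 v35; ok v36 && (
  let v37 := scale ⟨24315135655936, 0, 0, 0⟩ v21; ok v37 && (
  let v38 := add v36 v37; ok v38 && (
  let v39 := scale ⟨17925302976512, 0, 0, 0⟩ v26; ok v39 && (
  let v40 := add v38 v39; ok v40 && (
  let v41 := cst ⟨623154429952, 0, 0, 0⟩; ok v41 && (
  let v42 := add v40 v41; ok v42 && (
  let v43 := mul x0 v18; ok v43 && (
  let v44 := mul v43 v42; ok v44 && (
  let v45 := add v44 v0; ok v45 && (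
  let v46 := mul v31 v45; ok v46 && (
  let v47 := scale ⟨2199023255552, 0, 0, 0⟩ v27; ok v47 && (
  let v48 := mul v42 v31; ok v48 && (
  let v49 := sub v47 v48; ok v49 && (
  let v50 := mul x0 v49; ok v50 && (
  let v51 := add v46 v0; ok v51 && (
  let v52 := mul v50 v19; ok v52 && (
  let v53 := mul v52 x2; ok v53 && (
  let v54 := scale ⟨0, 0, 1099511627776, 0⟩ v51; ok v54 && (
  let v55 := add v53 v54; ok v55 && (
  let v56 := mul v51 x2; ok v56 && (
  let v57 := scale ⟨0, 0, 1099511627776, 0⟩ v50; ok v57 && (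
  let v58 := add v56 v57; ok v58 && (
  let v59 := inv v58; ok v59 && (
  let v60 := mul v55 v59; ok v60 && (
  let v61 := cst ⟨8601745752064, 0, 0, 0⟩; ok v61 && (
  let v62 := add v19 v61; ok v62 && (
  let v63 := mul x0 v62; ok v63 && (
  let v64 := mul x0 v60; ok v64 && (
  let v65 := mul v64 v60; ok v65 && (
  let v66 := mul x0 v19; ok v66 && (
  let v67 := sub v65 v66; ok v67 && (
  let v68 := inv v67; ok v68 && (
  let v69 := mul v63 v68; ok v69 && (
  isLt v69 1099511627520 && (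
  true))))))))))))))))))))))))))))))))))))))))))))))))))))))))))))))))))))))))
  | _ => false

set_option maxRecDepth 1000000 in
theorem c_B1_1_eq (X : XOps) (m : List X.O.α)
    (h : c_B1_1 X.O.cst X.O.add X.O.sub X.O.mul X.O.scale X.O.neg X.O.inv X.O.exp X.O.log X.O.ok
      X.O.isPos X.O.isLt X.ball X.rball m = true) :
    runX X 3 p_B1_1 m = true := by
  match m, h with
  | [x0, x1, x2, x3], h => exact h

abbrev gB1 : List (List Op) := [(p1_B1 ++ reloc [61, 62, 0, 64] 65 0 p2_1), p_B1_1]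

noncomputable abbrev kB1 : List (List xE.O.α → Bool) := [c_B1_0 xE.O.cst xE.O.add xE.O.sub xE.O.mul xE.O.scale xE.O.neg xE.O.inv xE.O.exp xE.O.log xE.O.ok
      xE.O.isPos xE.O.isLt xE.ball xE.rball, c_B1_1 xE.O.cst xE.O.add xE.O.sub xE.O.mul xE.O.scale xE.O.neg xE.O.inv xE.O.exp xE.O.log xE.O.ok
      xE.O.isPos xE.O.isLt xE.ball xE.rball]

theorem kB1_eq : List.Forall₂ (fun (ops : List Op) (chk : List xE.O.α → Bool) =>
    ∀ m, chk m = true → runX xE 3 ops m = true) gB1 kB1 :=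
  List.Forall₂.cons (c_B1_0_eq xE) (List.Forall₂.cons (c_B1_1_eq xE) List.Forall₂.nil)

theorem gB1_eq : gB1 = [circ (cB tab 1) (PSm tab 1), altP (cB tab 1) (oCut tab 1)] := by decide +kernel

def p1_D1 : List Op := [
  .const ⟨1099511627776, 0, 0, 0⟩,
  .mul 1 2,
  .exp 0,
  .neg 1,
  .exp 0,
  .mul 3 3,
  .lt 0 68719476736,
  .scale ⟨9162596898, 0, 0, 0⟩ 0,
  .const ⟨183251937962, 0, 0, 0⟩,
  .add 1 0,
  .mul 0 3,
  .const ⟨1099511627776, 0, 0, 0⟩,
  .add 1 0,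
  .const ⟨65536, 0, 0, 0⟩,
  .rball 1 0,
  .scale ⟨2199023255552, 0, 0, 0⟩ 15,
  .mul 0 1,
  .add 13 11,
  .scale ⟨549755813888, 0, 0, 0⟩ 0,
  .mul 2 0,
  .mul 0 0,
  .const ⟨8601745752064, 0, 0, 0⟩,
  .add 1 0,
  .scale ⟨0, 0, 1099511627776, 0⟩ 24,
  .exp 0,
  .mul 2 0,
  .add 5 0,
  .log 0,
  .scale ⟨549755813888, 0, 0, 0⟩ 0,
  .exp 0]

set_option maxRecDepth 1000000 in
noncomputable def c_D1_0 {α : Type} (cst : Z → α) (add sub mul : α → α → α) (scale : Z → α → α)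
    (neg inv exp log : α → α) (ok : α → Bool) (isPos : Nat → α → Bool) (isLt : α → Nat → Bool)
    (ball : Nat → α → α) (rball : α → α → α) : List α → Bool
  | [x0, x1, x2, x3] =>
  let v0 := cst ⟨1099511627776, 0, 0, 0⟩; ok v0 && (
  let v1 := mul x0 x1; ok v1 && (
  let v2 := exp v1; ok v2 && (
  let v3 := neg v1; ok v3 && (
  let v4 := exp v3; ok v4 && (
  let v5 := mul v1 v1; ok v5 && (
  isLt v5 68719476736 && (
  let v6 := scale ⟨9162596898, 0, 0, 0⟩ v5; ok v6 && (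
  let v7 := cst ⟨183251937962, 0, 0, 0⟩; ok v7 && (
  let v8 := add v6 v7; ok v8 && (
  let v9 := mul v8 v5; ok v9 && (
  let v10 := cst ⟨1099511627776, 0, 0, 0⟩; ok v10 && (
  let v11 := add v9 v10; ok v11 && (
  let v12 := cst ⟨65536, 0, 0, 0⟩; ok v12 && (
  let v13 := rball v11 v12; ok v13 && (
  let v14 := scale ⟨2199023255552, 0, 0, 0⟩ x1; ok v14 && (
  let v15 := mul v14 v13; ok v15 && (
  let v16 := add v2 v4; ok v16 && (
  let v17 := scale ⟨549755813888, 0, 0, 0⟩ v16; ok v17 && (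
  let v18 := mul v15 v17; ok v18 && (
  let v19 := mul v18 v18; ok v19 && (
  let v20 := cst ⟨8601745752064, 0, 0, 0⟩; ok v20 && (
  let v21 := add v19 v20; ok v21 && (
  let v22 := scale ⟨0, 0, 1099511627776, 0⟩ x2; ok v22 && (
  let v23 := exp v22; ok v23 && (
  let v24 := mul v21 v23; ok v24 && (
  let v25 := add v19 v24; ok v25 && (
  let v26 := log v25; ok v26 && (
  let v27 := scale ⟨549755813888, 0, 0, 0⟩ v26; ok v27 && (
  let v28 := exp v27; ok v28 && (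
  c2_1 cst add sub mul scale neg inv exp log ok isPos isLt ball rball [x0, x1, v28, x3]))))))))))))))))))))))))))))))
  | _ => false

set_option maxRecDepth 1000000 in
theorem c_D1_0_eq (X : XOps) (m : List X.O.α)
    (h : c_D1_0 X.O.cst X.O.add X.O.sub X.O.mul X.O.scale X.O.neg X.O.inv X.O.exp X.O.log X.O.ok
      X.O.isPos X.O.isLt X.ball X.rball m = true) :
    runX X 3 (p1_D1 ++ reloc [29, 30, 0, 32] 33 0 p2_1) m = true := by
  match m, h with
  | [x0, x1, x2, x3], h => exact share (c2_1_eq X) [x0, x1, x2, x3] (Nat.le_of_ble_eq_true rfl) h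

def p_D1_1 : List Op := [
  .const ⟨1099511627776, 0, 0, 0⟩,
  .mul 1 2,
  .exp 0,
  .neg 1,
  .exp 0,
  .mul 3 3,
  .lt 0 68719476736,
  .scale ⟨9162596898, 0, 0, 0⟩ 0,
  .const ⟨183251937962, 0, 0, 0⟩,
  .add 1 0,
  .mul 0 3,
  .const ⟨1099511627776, 0, 0, 0⟩,
  .add 1 0,
  .const ⟨65536, 0, 0, 0⟩,
  .rball 1 0,
  .scale ⟨2199023255552, 0, 0, 0⟩ 15,
  .mul 0 1,
  .add 13 11,
  .scale ⟨549755813888, 0, 0, 0⟩ 0,
  .mul 2 0,
  .mul 0 0,
  .const ⟨9160359936, 0, 0, 0⟩,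
  .sub 21 0,
  .const ⟨5222680231936, 0, 0, 0⟩,
  .sub 24 0,
  .mul 0 0,
  .mul 0 1,
  .mul 4 2,
  .mul 22 22,
  .mul 0 0,
  .scale ⟨4398046511104, 0, 0, 0⟩ 27,
  .neg 0,
  .exp 0,
  .scale ⟨0, 27720941568, 0, 0⟩ 8,
  .scale ⟨30163075072, 0, 0, 0⟩ 8,
  .add 1 0,
  .scale ⟨0, 6188695552, 0, 0⟩ 9,
  .add 1 0,
  .scale ⟨24315135655936, 0, 0, 0⟩ 15,
  .add 1 0,
  .scale ⟨17925302976512, 0, 0, 0⟩ 12,
  .add 1 0,
  .const ⟨623154429952, 0, 0, 0⟩,
  .add 1 0,
  .mul 43 24,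
  .mul 0 1,
  .add 0 44,
  .mul 14 0,
  .scale ⟨2199023255552, 0, 0, 0⟩ 19,
  .mul 5 16,
  .sub 1 0,
  .const ⟨8601745752064, 0, 0, 0⟩,
  .add 31 0,
  .scale ⟨0, 0, 1099511627776, 0⟩ 54,
  .exp 0,
  .mul 2 0,
  .add 35 0,
  .log 0,
  .scale ⟨549755813888, 0, 0, 0⟩ 0,
  .exp 0,
  .scale ⟨0, 0, 0, 1099511627776⟩ 61,
  .exp 0,
  .mul 9 0,
  .add 42 0,
  .log 0,
  .scale ⟨549755813888, 0, 0, 0⟩ 0,
  .exp 0,
  .mul 66 16,
  .add 20 66,
  .mul 1 0,
  .mul 10 3,
  .add 50 0,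
  .mul 2 0,
  .mul 25 25,
  .add 0 72,
  .add 15 8,
  .mul 1 0,
  .sub 4 0,
  .pos 0]

set_option maxRecDepth 1000000 in
noncomputable def c_D1_1 {α : Type} (cst : Z → α) (add sub mul : α → α → α) (scale : Z → α → α)
    (neg inv exp log : α → α) (ok : α → Bool) (isPos : Nat → α → Bool) (isLt : α → Nat → Bool)
    (ball : Nat → α → α) (rball : α → α → α) : List α → Bool
  | [x0, x1, x2, x3] =>
  let v0 := cst ⟨1099511627776, 0, 0, 0⟩; ok v0 && (
  let v1 := mul x0 x1; ok v1 && (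
  let v2 := exp v1; ok v2 && (
  let v3 := neg v1; ok v3 && (
  let v4 := exp v3; ok v4 && (
  let v5 := mul v1 v1; ok v5 && (
  isLt v5 68719476736 && (
  let v6 := scale ⟨9162596898, 0, 0, 0⟩ v5; ok v6 && (
  let v7 := cst ⟨183251937962, 0, 0, 0⟩; ok v7 && (
  let v8 := add v6 v7; ok v8 && (
  let v9 := mul v8 v5; ok v9 && (
  let v10 := cst ⟨1099511627776, 0, 0, 0⟩; ok v10 && (
  let v11 := add v9 v10; ok v11 && (
  let v12 := cst ⟨65536, 0, 0, 0⟩; ok v12 && (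
  let v13 := rball v11 v12; ok v13 && (
  let v14 := scale ⟨2199023255552, 0, 0, 0⟩ x1; ok v14 && (
  let v15 := mul v14 v13; ok v15 && (
  let v16 := add v2 v4; ok v16 && (
  let v17 := scale ⟨549755813888, 0, 0, 0⟩ v16; ok v17 && (
  let v18 := mul v15 v17; ok v18 && (
  let v19 := mul v18 v18; ok v19 && (
  let v20 := cst ⟨9160359936, 0, 0, 0⟩; ok v20 && (
  let v21 := sub x0 v20; ok v21 && (
  let v22 := cst ⟨5222680231936, 0, 0, 0⟩; ok v22 && (
  let v23 := sub x1 v22; ok v23 && (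
  let v24 := mul v23 v23; ok v24 && (
  let v25 := mul v24 v23; ok v25 && (
  let v26 := mul v21 v23; ok v26 && (
  let v27 := mul v4 v4; ok v27 && (
  let v28 := mul v27 v27; ok v28 && (
  let v29 := scale ⟨4398046511104, 0, 0, 0⟩ v1; ok v29 && (
  let v30 := neg v29; ok v30 && (
  let v31 := exp v30; ok v31 && (
  let v32 := scale ⟨0, 27720941568, 0, 0⟩ v23; ok v32 && (
  let v33 := scale ⟨30163075072, 0, 0, 0⟩ v24; ok v33 && (
  let v34 := add v32 v33; ok v34 && (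
  let v35 := scale ⟨0, 6188695552, 0, 0⟩ v25; ok v35 && (
  let v36 := add v34 v35; ok v36 && (
  let v37 := scale ⟨24315135655936, 0, 0, 0⟩ v21; ok v37 && (
  let v38 := add v36 v37; ok v38 && (
  let v39 := scale ⟨17925302976512, 0, 0, 0⟩ v26; ok v39 && (
  let v40 := add v38 v39; ok v40 && (
  let v41 := cst ⟨623154429952, 0, 0, 0⟩; ok v41 && (
  let v42 := add v40 v41; ok v42 && (
  let v43 := mul x0 v18; ok v43 && (
  let v44 := mul v43 v42; ok v44 && (
  let v45 := add v44 v0; ok v45 && (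
  let v46 := mul v31 v45; ok v46 && (
  let v47 := scale ⟨2199023255552, 0, 0, 0⟩ v27; ok v47 && (
  let v48 := mul v42 v31; ok v48 && (
  let v49 := sub v47 v48; ok v49 && (
  let v50 := cst ⟨8601745752064, 0, 0, 0⟩; ok v50 && (
  let v51 := add v19 v50; ok v51 && (
  let v52 := scale ⟨0, 0, 1099511627776, 0⟩ x2; ok v52 && (
  let v53 := exp v52; ok v53 && (
  let v54 := mul v51 v53; ok v54 && (
  let v55 := add v19 v54; ok v55 && (
  let v56 := log v55; ok v56 && (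
  let v57 := scale ⟨549755813888, 0, 0, 0⟩ v56; ok v57 && (
  let v58 := exp v57; ok v58 && (
  let v59 := scale ⟨0, 0, 0, 1099511627776⟩ x2; ok v59 && (
  let v60 := exp v59; ok v60 && (
  let v61 := mul v51 v60; ok v61 && (
  let v62 := add v19 v61; ok v62 && (
  let v63 := log v62; ok v63 && (
  let v64 := scale ⟨549755813888, 0, 0, 0⟩ v63; ok v64 && (
  let v65 := exp v64; ok v65 && (
  let v66 := mul x0 v49; ok v66 && (
  let v67 := add v46 v0; ok v67 && (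
  let v68 := mul v66 v67; ok v68 && (
  let v69 := mul v58 v65; ok v69 && (
  let v70 := add v19 v69; ok v70 && (
  let v71 := mul v68 v70; ok v71 && (
  let v72 := mul v46 v46; ok v72 && (
  let v73 := add v72 v0; ok v73 && (
  let v74 := add v58 v65; ok v74 && (
  let v75 := mul v73 v74; ok v75 && (
  let v76 := sub v71 v75; ok v76 && (
  isPos 3 v76 && (
  true)))))))))))))))))))))))))))))))))))))))))))))))))))))))))))))))))))))))))))))))
  | _ => false

set_option maxRecDepth 1000000 in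
theorem c_D1_1_eq (X : XOps) (m : List X.O.α)
    (h : c_D1_1 X.O.cst X.O.add X.O.sub X.O.mul X.O.scale X.O.neg X.O.inv X.O.exp X.O.log X.O.ok
      X.O.isPos X.O.isLt X.ball X.rball m = true) :
    runX X 3 p_D1_1 m = true := by
  match m, h with
  | [x0, x1, x2, x3], h => exact h

abbrev gD1 : List (List Op) := [(p1_D1 ++ reloc [29, 30, 0, 32] 33 0 p2_1), p_D1_1]

noncomputable abbrev kD1 : List (List xE.O.α → Bool) := [c_D1_0 xE.O.cst xE.O.add xE.O.sub xE.O.mul xE.O.scale xE.O.neg xE.O.inv xE.O.exp xE.O.log xE.O.ok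
      xE.O.isPos xE.O.isLt xE.ball xE.rball, c_D1_1 xE.O.cst xE.O.add xE.O.sub xE.O.mul xE.O.scale xE.O.neg xE.O.inv xE.O.exp xE.O.log xE.O.ok
      xE.O.isPos xE.O.isLt xE.ball xE.rball]

theorem kD1_eq : List.Forall₂ (fun (ops : List Op) (chk : List xE.O.α → Bool) =>
    ∀ m, chk m = true → runX xE 3 ops m = true) gD1 kD1 :=
  List.Forall₂.cons (c_D1_0_eq xE) (List.Forall₂.cons (c_D1_1_eq xE) List.Forall₂.nil)

theorem gD1_eq : gD1 = [circ (cD tab 1) (PSm tab 1), comp (oD tab 1) ρ4 4] := by decide +kernel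

def p1_E1 : List Op := [
  .const ⟨1099511627776, 0, 0, 0⟩,
  .mul 1 2,
  .exp 0,
  .neg 1,
  .exp 0,
  .mul 3 3,
  .lt 0 68719476736,
  .scale ⟨9162596898, 0, 0, 0⟩ 0,
  .const ⟨183251937962, 0, 0, 0⟩,
  .add 1 0,
  .mul 0 3,
  .const ⟨1099511627776, 0, 0, 0⟩,
  .add 1 0,
  .const ⟨65536, 0, 0, 0⟩,
  .rball 1 0,
  .scale ⟨2199023255552, 0, 0, 0⟩ 15,
  .mul 0 1,
  .add 13 11,
  .scale ⟨549755813888, 0, 0, 0⟩ 0,
  .mul 2 0,
  .mul 0 0,
  .const ⟨8601745752064, 0, 0, 0⟩,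
  .add 1 0,
  .scale ⟨0, 0, 0, 1099511627776⟩ 24,
  .exp 0,
  .mul 2 0,
  .sub 0 5,
  .log 0,
  .scale ⟨549755813888, 0, 0, 0⟩ 0,
  .exp 0,
  .scale ⟨0, 0, 1099511627776, 0⟩ 0]

set_option maxRecDepth 1000000 in
noncomputable def c_E1_0 {α : Type} (cst : Z → α) (add sub mul : α → α → α) (scale : Z → α → α)
    (neg inv exp log : α → α) (ok : α → Bool) (isPos : Nat → α → Bool) (isLt : α → Nat → Bool)
    (ball : Nat → α → α) (rball : α → α → α) : List α → Bool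
  | [x0, x1, x2, x3] =>
  let v0 := cst ⟨1099511627776, 0, 0, 0⟩; ok v0 && (
  let v1 := mul x0 x1; ok v1 && (
  let v2 := exp v1; ok v2 && (
  let v3 := neg v1; ok v3 && (
  let v4 := exp v3; ok v4 && (
  let v5 := mul v1 v1; ok v5 && (
  isLt v5 68719476736 && (
  let v6 := scale ⟨9162596898, 0, 0, 0⟩ v5; ok v6 && (
  let v7 := cst ⟨183251937962, 0, 0, 0⟩; ok v7 && (
  let v8 := add v6 v7; ok v8 && (
  let v9 := mul v8 v5; ok v9 && (
  let v10 := cst ⟨1099511627776, 0, 0, 0⟩; ok v10 && (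
  let v11 := add v9 v10; ok v11 && (
  let v12 := cst ⟨65536, 0, 0, 0⟩; ok v12 && (
  let v13 := rball v11 v12; ok v13 && (
  let v14 := scale ⟨2199023255552, 0, 0, 0⟩ x1; ok v14 && (
  let v15 := mul v14 v13; ok v15 && (
  let v16 := add v2 v4; ok v16 && (
  let v17 := scale ⟨549755813888, 0, 0, 0⟩ v16; ok v17 && (
  let v18 := mul v15 v17; ok v18 && (
  let v19 := mul v18 v18; ok v19 && (
  let v20 := cst ⟨8601745752064, 0, 0, 0⟩; ok v20 && (
  let v21 := add v19 v20; ok v21 && (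
  let v22 := scale ⟨0, 0, 0, 1099511627776⟩ x2; ok v22 && (
  let v23 := exp v22; ok v23 && (
  let v24 := mul v21 v23; ok v24 && (
  let v25 := sub v24 v19; ok v25 && (
  let v26 := log v25; ok v26 && (
  let v27 := scale ⟨549755813888, 0, 0, 0⟩ v26; ok v27 && (
  let v28 := exp v27; ok v28 && (
  let v29 := scale ⟨0, 0, 1099511627776, 0⟩ v28; ok v29 && (
  c2_1 cst add sub mul scale neg inv exp log ok isPos isLt ball rball [x0, x1, v29, x3])))))))))))))))))))))))))))))))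
  | _ => false

set_option maxRecDepth 1000000 in
theorem c_E1_0_eq (X : XOps) (m : List X.O.α)
    (h : c_E1_0 X.O.cst X.O.add X.O.sub X.O.mul X.O.scale X.O.neg X.O.inv X.O.exp X.O.log X.O.ok
      X.O.isPos X.O.isLt X.ball X.rball m = true) :
    runX X 3 (p1_E1 ++ reloc [30, 31, 0, 33] 34 0 p2_1) m = true := by
  match m, h with
  | [x0, x1, x2, x3], h => exact share (c2_1_eq X) [x0, x1, x2, x3] (Nat.le_of_ble_eq_true rfl) h

def p_E1_1 : List Op := [
  .const ⟨1099511627776, 0, 0, 0⟩,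
  .mul 1 2,
  .exp 0,
  .neg 1,
  .exp 0,
  .mul 3 3,
  .lt 0 68719476736,
  .scale ⟨9162596898, 0, 0, 0⟩ 0,
  .const ⟨183251937962, 0, 0, 0⟩,
  .add 1 0,
  .mul 0 3,
  .const ⟨1099511627776, 0, 0, 0⟩,
  .add 1 0,
  .const ⟨65536, 0, 0, 0⟩,
  .rball 1 0,
  .scale ⟨2199023255552, 0, 0, 0⟩ 15,
  .mul 0 1,
  .add 13 11,
  .scale ⟨549755813888, 0, 0, 0⟩ 0,
  .mul 2 0,
  .mul 0 0,
  .const ⟨9160359936, 0, 0, 0⟩,
  .sub 21 0,
  .const ⟨5222680231936, 0, 0, 0⟩,
  .sub 24 0,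
  .mul 0 0,
  .mul 0 1,
  .mul 4 2,
  .mul 22 22,
  .mul 0 0,
  .scale ⟨4398046511104, 0, 0, 0⟩ 27,
  .neg 0,
  .exp 0,
  .scale ⟨0, 27720941568, 0, 0⟩ 8,
  .scale ⟨30163075072, 0, 0, 0⟩ 8,
  .add 1 0,
  .scale ⟨0, 6188695552, 0, 0⟩ 9,
  .add 1 0,
  .scale ⟨24315135655936, 0, 0, 0⟩ 15,
  .add 1 0,
  .scale ⟨17925302976512, 0, 0, 0⟩ 12,
  .add 1 0,
  .const ⟨623154429952, 0, 0, 0⟩,
  .add 1 0,
  .mul 43 24,
  .mul 0 1,
  .add 0 44,
  .mul 14 0,
  .scale ⟨2199023255552, 0, 0, 0⟩ 19,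
  .mul 5 16,
  .sub 1 0,
  .const ⟨8601745752064, 0, 0, 0⟩,
  .add 31 0,
  .scale ⟨0, 0, 0, 1099511627776⟩ 54,
  .exp 0,
  .mul 2 0,
  .sub 0 35,
  .log 0,
  .scale ⟨549755813888, 0, 0, 0⟩ 0,
  .exp 0,
  .scale ⟨0, 0, 1099511627776, 0⟩ 0,
  .scale ⟨0, 0, 1099511627776, 0⟩ 62,
  .exp 0,
  .mul 10 0,
  .sub 0 43,
  .log 0,
  .scale ⟨549755813888, 0, 0, 0⟩ 0,
  .exp 0,
  .scale ⟨0, 0, 0, 1099511627776⟩ 0,
  .mul 68 18,
  .add 22 68,
  .mul 1 0,
  .mul 11 3,
  .add 52 0,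
  .mul 2 0,
  .mul 27 27,
  .add 0 74,
  .add 16 8,
  .mul 1 0,
  .sub 4 0,
  .pos 0]

set_option maxRecDepth 1000000 in
noncomputable def c_E1_1 {α : Type} (cst : Z → α) (add sub mul : α → α → α) (scale : Z → α → α)
    (neg inv exp log : α → α) (ok : α → Bool) (isPos : Nat → α → Bool) (isLt : α → Nat → Bool)
    (ball : Nat → α → α) (rball : α → α → α) : List α → Bool
  | [x0, x1, x2, x3] =>
  let v0 := cst ⟨1099511627776, 0, 0, 0⟩; ok v0 && (
  let v1 := mul x0 x1; ok v1 && (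
  let v2 := exp v1; ok v2 && (
  let v3 := neg v1; ok v3 && (
  let v4 := exp v3; ok v4 && (
  let v5 := mul v1 v1; ok v5 && (
  isLt v5 68719476736 && (
  let v6 := scale ⟨9162596898, 0, 0, 0⟩ v5; ok v6 && (
  let v7 := cst ⟨183251937962, 0, 0, 0⟩; ok v7 && (
  let v8 := add v6 v7; ok v8 && (
  let v9 := mul v8 v5; ok v9 && (
  let v10 := cst ⟨1099511627776, 0, 0, 0⟩; ok v10 && (
  let v11 := add v9 v10; ok v11 && (
  let v12 := cst ⟨65536, 0, 0, 0⟩; ok v12 && (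
  let v13 := rball v11 v12; ok v13 && (
  let v14 := scale ⟨2199023255552, 0, 0, 0⟩ x1; ok v14 && (
  let v15 := mul v14 v13; ok v15 && (
  let v16 := add v2 v4; ok v16 && (
  let v17 := scale ⟨549755813888, 0, 0, 0⟩ v16; ok v17 && (
  let v18 := mul v15 v17; ok v18 && (
  let v19 := mul v18 v18; ok v19 && (
  let v20 := cst ⟨9160359936, 0, 0, 0⟩; ok v20 && (
  let v21 := sub x0 v20; ok v21 && (
  let v22 := cst ⟨5222680231936, 0, 0, 0⟩; ok v22 && (
  let v23 := sub x1 v22; ok v23 && (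
  let v24 := mul v23 v23; ok v24 && (
  let v25 := mul v24 v23; ok v25 && (
  let v26 := mul v21 v23; ok v26 && (
  let v27 := mul v4 v4; ok v27 && (
  let v28 := mul v27 v27; ok v28 && (
  let v29 := scale ⟨4398046511104, 0, 0, 0⟩ v1; ok v29 && (
  let v30 := neg v29; ok v30 && (
  let v31 := exp v30; ok v31 && (
  let v32 := scale ⟨0, 27720941568, 0, 0⟩ v23; ok v32 && (
  let v33 := scale ⟨30163075072, 0, 0, 0⟩ v24; ok v33 && (
  let v34 := add v32 v33; ok v34 && (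
  let v35 := scale ⟨0, 6188695552, 0, 0⟩ v25; ok v35 && (
  let v36 := add v34 v35; ok v36 && (
  let v37 := scale ⟨24315135655936, 0, 0, 0⟩ v21; ok v37 && (
  let v38 := add v36 v37; ok v38 && (
  let v39 := scale ⟨17925302976512, 0, 0, 0⟩ v26; ok v39 && (
  let v40 := add v38 v39; ok v40 && (
  let v41 := cst ⟨623154429952, 0, 0, 0⟩; ok v41 && (
  let v42 := add v40 v41; ok v42 && (
  let v43 := mul x0 v18; ok v43 && (
  let v44 := mul v43 v42; ok v44 && (
  let v45 := add v44 v0; ok v45 && (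
  let v46 := mul v31 v45; ok v46 && (
  let v47 := scale ⟨2199023255552, 0, 0, 0⟩ v27; ok v47 && (
  let v48 := mul v42 v31; ok v48 && (
  let v49 := sub v47 v48; ok v49 && (
  let v50 := cst ⟨8601745752064, 0, 0, 0⟩; ok v50 && (
  let v51 := add v19 v50; ok v51 && (
  let v52 := scale ⟨0, 0, 0, 1099511627776⟩ x2; ok v52 && (
  let v53 := exp v52; ok v53 && (
  let v54 := mul v51 v53; ok v54 && (
  let v55 := sub v54 v19; ok v55 && (
  let v56 := log v55; ok v56 && (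
  let v57 := scale ⟨549755813888, 0, 0, 0⟩ v56; ok v57 && (
  let v58 := exp v57; ok v58 && (
  let v59 := scale ⟨0, 0, 1099511627776, 0⟩ v58; ok v59 && (
  let v60 := scale ⟨0, 0, 1099511627776, 0⟩ x2; ok v60 && (
  let v61 := exp v60; ok v61 && (
  let v62 := mul v51 v61; ok v62 && (
  let v63 := sub v62 v19; ok v63 && (
  let v64 := log v63; ok v64 && (
  let v65 := scale ⟨549755813888, 0, 0, 0⟩ v64; ok v65 && (
  let v66 := exp v65; ok v66 && (
  let v67 := scale ⟨0, 0, 0, 1099511627776⟩ v66; ok v67 && (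
  let v68 := mul x0 v49; ok v68 && (
  let v69 := add v46 v0; ok v69 && (
  let v70 := mul v68 v69; ok v70 && (
  let v71 := mul v59 v67; ok v71 && (
  let v72 := add v19 v71; ok v72 && (
  let v73 := mul v70 v72; ok v73 && (
  let v74 := mul v46 v46; ok v74 && (
  let v75 := add v74 v0; ok v75 && (
  let v76 := add v59 v67; ok v76 && (
  let v77 := mul v75 v76; ok v77 && (
  let v78 := sub v73 v77; ok v78 && (
  isPos 3 v78 && (
  true)))))))))))))))))))))))))))))))))))))))))))))))))))))))))))))))))))))))))))))))))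
  | _ => false

set_option maxRecDepth 1000000 in
theorem c_E1_1_eq (X : XOps) (m : List X.O.α)
    (h : c_E1_1 X.O.cst X.O.add X.O.sub X.O.mul X.O.scale X.O.neg X.O.inv X.O.exp X.O.log X.O.ok
      X.O.isPos X.O.isLt X.ball X.rball m = true) :
    runX X 3 p_E1_1 m = true := by
  match m, h with
  | [x0, x1, x2, x3], h => exact h

abbrev gE1 : List (List Op) := [(p1_E1 ++ reloc [30, 31, 0, 33] 34 0 p2_1), p_E1_1]

noncomputable abbrev kE1 : List (List xE.O.α → Bool) := [c_E1_0 xE.O.cst xE.O.add xE.O.sub xE.O.mul xE.O.scale xE.O.neg xE.O.inv xE.O.exp xE.O.log xE.O.ok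
      xE.O.isPos xE.O.isLt xE.ball xE.rball, c_E1_1 xE.O.cst xE.O.add xE.O.sub xE.O.mul xE.O.scale xE.O.neg xE.O.inv xE.O.exp xE.O.log xE.O.ok
      xE.O.isPos xE.O.isLt xE.ball xE.rball]

theorem kE1_eq : List.Forall₂ (fun (ops : List Op) (chk : List xE.O.α → Bool) =>
    ∀ m, chk m = true → runX xE 3 ops m = true) gE1 kE1 :=
  List.Forall₂.cons (c_E1_0_eq xE) (List.Forall₂.cons (c_E1_1_eq xE) List.Forall₂.nil)

theorem gE1_eq : gE1 = [circ (cE tab 1) (PSm tab 1), comp (oE tab 1) ρ4 4] := by decide +kernel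

end Pool.Agent.helper14.NS.Q100f
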