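import Pool.Agent.helper14.NS.Cert

/-!
Generated: table Q100f.
-/

namespace Pool.Agent.helper14.NS.Q100f

open Pool.Agent.helper63.NF Pool.Agent.helper4.NS

def tab : TD where
  strip := false
  bm := none
  ec := 9160359936
  bc := 5222680231936
  H := [[[23529121088, -463600384, -76868288, 3731968], [2371154920256, 35909621888], [-10662515203904]], [[-2150699072, 184037184, 41831360], [-126775198080, 9635357568]], [[160027328, -22158528, -1556608], [2874456704]], [[-9364864, 1122240], [-37394368]], [[363712, -20608]], [[-8256]], [[64]]]
  pol := some ⟨-2840315559936, -170458662043648, 6562978463744, 39174379995136, [[-172575225472, 9649029248], [-20326425519744, 0]], [[67823178624, -64997899520], [4727830303744, 0]]⟩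
  a := [[[445942136832, -67408494592, 8136491008, 33594605568], [7107594289152, 45352239104000]], [[35592994816, -29622272, 0, 0], [-16906584064, -3543072768]], [[35804938240, 14942208, 0, 0], [8503689216, 1794310144]], [[35663511552, -14876672, 0, 0], [-8470069248, -1779105792]], [[35875848192, 29884416, 0, 0], [17041129472, 3603955712]]]
  j := [15668040695808, 1374389534720, 2886218022912, 4260607557632, 5772436045824]
  c := [659814350848, 989453090816, 769604452352, 549755813888, 439697276928]
  M := [[[[1108375830528, 6011158528, 306118656], [2599884750848, 1265692180480], [190044154822656]], [[33883291648, 937885696], [4518108004352]], [[19501219840, -3934715904], [-637613572096]], [[-5404950528]], [[19223805952]], [[8735555584]]], [[[1111585062912, 3129016320, 173998080], [2232935383040]], [[3878813696, 23855104], [582031704064]], [[66387968]], [[-1703936]]], [[[1112550408192, 2506686464, -260964352], [2687966969856]], [[3636854784, 66584576], [564987232256]], [[82313216]], [[-2031616]]], [[[1113184600064, 1988952064, -260308992], [2831235350528]], [[3578855424, 105709568], [558434877440]], [[83034112]], [[-2031616]]], [[[1113506316288, 1467154432, -390594560], [2829545373696]], [[3580166144, 132186112],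 [556969295872]], [[81264640]], [[-2031616]]]]
  l0 := [[[3823917938304, -7732041344], [-10658865831360]], [[1184093844352, -209359972224], [-52436338007616]], [[587819733824, 759450668864], [221618948665600]], [[1907463291392, -1569155468480], [-131495859220864]], [[1040658367360, 2486713663872], [536369452416384]], [[6798376135040, -2329256063168], [85984405113216]], [[63676723799552]], [[-65319004276864]], [[355156728753664]], [[-157259022913792]], [[385736373446144]], [[166589167689856]]]
  q0 := [[203249952256, 56038358528, 1818619456], [27285297636672, 7201526888640], [93195582408192]]
  t := [[[623154429952, -27720941568, 30163075072, -6188695552], [24315135655936, 17925302976512]], [[383293456384, 45460094976, 6994001920, 2159804416], [34046421106688, 7538313003008]], [[362507862016, 38348062720, 3466985472, 141950976], [29728697221120, 5083039334400]], [[350392745984, 30722293760, 1533280256, -56623104], [26337489125376, 3173153112064]], [[341783871488, 24902959104, -4915200, 145227776], [23704280498176, 1238085926912]]]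
  y := [8601745752064, 11839077351424, 13902809137152, 15370614210560, 16314433273856]
  sc := [0, 0, 0, 0, 0]
  L := [(0, 2), (0, 3), (1, 1), (2, 0)]
  Lt := [(0, 2), (0, 3), (1, 1)]
  far := 4
  x2 := 10775214161920
  B1 := 1979120091136
  C2 := 1716310500352
  f1 := 0
  f2 := 0
  f3 := 0
  is1 := 8796093022208
  s1 := 137438953472

end Pool.Agent.helper14.NS.Q100f
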